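import Pool.Agent.X330.SZ.Step2

/-!
The two phases of the induction.
-/

set_option autoImplicit false

open MvPolynomial Filter Topology

namespace Pool.Agent.X330.SZ

/-- constant -/
noncomputable def Kc (n e : ℕ) : ℝ := (2 * Cn n) ^ e

lemma Kc_pos (n e : ℕ) : 0 < Kc n e := by
  have := Cn_pos n
  unfold Kc; positivity

lemma Kc_succ (n e : ℕ) : Kc n (e + 1) = 2 * Cn n * Kc n e := by
  unfold Kc; rw [pow_succ']

lemma Van_A_zero {n : ℕ} {ι : Type} (D : Data n ι) (P : Ideal (MvPolynomial (Fin (n + 1)) ℚ))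
    (F : Finset ι) (hF : ∀ p ∈ F, Van D P p) : A P 0 F.card := by
  refine A_zero P F (fun p j => (D.x p j : ℚ)) ?_ ?_ hF
  · intro p _ h0
    apply D.x_ne p
    funext j
    have h1 : ((D.x p j : ℤ) : ℚ) = 0 := congrFun h0 j
    exact_mod_cast h1
  · intro p _ q _ hpq
    obtain ⟨z, hz1, hz2⟩ := D.sep p q hpq
    refine ⟨lin z, lin_mem z, ?_, ?_⟩
    · rw [lin_eval]; exact_mod_cast hz1
    · rw [lin_eval, hz2, Int.cast_zero]

/-- Phase 1 -/
theorem phase1 {n : ℕ} {ι : Type} (D : Data n ι) (Y : ℝ)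
    (hY : ∀ p, (2 : ℝ) ^ (∑ i ∈ Finset.range n, D.E p i) ≤ Y) :
    ∀ e r : ℕ, n = e + r → ∀ P : Ideal (MvPolynomial (Fin (n + 1)) ℚ), P.IsPrime → Hom P →
      e + 1 ≤ dimQ P → ∀ a' : ℕ, ∀ F : Finset ι, (∀ p ∈ F, Van D P p) →
      (∀ p ∈ F, ∑ i ∈ Finset.range r, D.E p i = a') →
      A P e (F.card / (Kc n e * Y ^ (e + 1) / 2 ^ a')) := by
  intro e
  induction e with
  | zero =>
    intro r hr P hP hhom hdim a' F hF ha
    rcases F.eq_empty_or_nonempty with hF0 | ⟨p0, hp0⟩
    · subst hF0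
      apply A_nonpos; simp
    refine (Van_A_zero D P F hF).mono ?_
    rw [zero_add] at hr
    subst hr
    have h1 := hY p0
    rw [ha p0 hp0] at h1
    have h2 : 1 ≤ Kc n 0 * Y ^ (0 + 1) / 2 ^ a' := by
      unfold Kc
      rw [pow_zero, one_mul, zero_add, pow_one, le_div_iff₀ (by positivity), one_mul]
      exact h1
    exact div_le_self (Nat.cast_nonneg _) h2
  | succ e ih =>
    intro r hr P hP hhom hdim a' F hF ha
    rcases F.eq_empty_or_nonempty with hF0 | hF0
    · subst hF0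
      apply A_nonpos; simp
    have hYpos : 0 < Y := by
      obtain ⟨p0, _⟩ := hF0
      exact lt_of_lt_of_le (by positivity) (hY p0)
    obtain ⟨b, hb, hpig⟩ := pigeon F hF0 (fun p => D.E p r) (e + 1) (by omega) (Y / 2 ^ a') (by
      intro p hp
      rw [le_div_iff₀ (by positivity), ← pow_add]
      refine le_trans ?_ (hY p)
      apply pow_le_pow_right₀ (by norm_num)
      have h1 : ∑ i ∈ Finset.range n, D.E p i = ∑ i ∈ Finset.range r, D.E p i +
          ∑ j ∈ Finset.range (e + 1), D.E p (r + j) := by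
        rw [← Finset.sum_range_add]
        congr 2
        omega
      rw [h1, ha p hp]
      have h2 : ∑ j ∈ Finset.range (e + 1), D.E p r ≤ ∑ j ∈ Finset.range (e + 1), D.E p (r + j) := by
        refine Finset.sum_le_sum fun j hj => ?_
        rw [Finset.mem_range] at hj
        exact D.mono p r (r + j) (by omega) (by omega)
      rw [Finset.sum_const, Finset.card_range, smul_eq_mul] at h2
      omega)
    have hstep := step D e r b a' (by omega) P hP hhom (by omega)
      (F.filter fun p => D.E p r = b) (fun p hp => hF p (Finset.mem_filter.1 hp).1)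
      (fun p hp => (Finset.mem_filter.1 hp).2) (fun p hp => ha p (Finset.mem_filter.1 hp).1)
      (Kc n e * Y ^ (e + 1) / 2 ^ (a' + b)) (by have := Kc_pos n e; positivity) (by
        intro Z hZ hZhom hZdim F' hF' hvan
        refine ih (r + 1) (by omega) Z hZ hZhom hZdim (a' + b) F' hvan ?_
        intro p hp
        have h1 := Finset.mem_filter.1 (hF' hp)
        rw [Finset.sum_range_succ, ha p h1.1, h1.2])
    refine hstep.mono ?_
    have hK := Kc_pos n e
    have hC := Cn_pos n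
    have h1 : Kc n e * Y ^ (e + 1) / 2 ^ (a' + b) * (Cn n * 2 ^ ((e + 2) * b + a')) =
        Kc n e * Cn n * Y ^ (e + 1) * 2 ^ ((e + 1) * b) := by
      rw [div_mul_eq_mul_div, div_eq_iff (by positivity)]
      have h2 : (2 : ℝ) ^ ((e + 2) * b + a') = 2 ^ ((e + 1) * b) * 2 ^ (a' + b) := by
        rw [← pow_add]; congr 1; ring
      rw [h2]; ring
    rw [h1]
    have h3 : (F.card : ℝ) / (Kc n (e + 1) * Y ^ (e + 1 + 1) / 2 ^ a') =
        (F.card : ℝ) / (2 * (Y / 2 ^ a')) / (Kc n e * Cn n * Y ^ (e + 1)) := by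
      rw [Kc_succ, div_div]
      congr 1
      rw [pow_succ Y (e + 1)]
      ring
    have h4 : ((F.filter fun p => D.E p r = b).card : ℝ) /
        (Kc n e * Cn n * Y ^ (e + 1) * 2 ^ ((e + 1) * b)) =
        ((F.filter fun p => D.E p r = b).card : ℝ) / 2 ^ ((e + 1) * b) /
          (Kc n e * Cn n * Y ^ (e + 1)) := by
      rw [div_div]; congr 1; ring
    rw [h3, h4]
    gcongr

/-- Phase 2 -/
theorem phase2 {n : ℕ} {ι : Type} (D : Data n ι) (Y : ℝ)
    (hY : ∀ p, (2 : ℝ) ^ (∑ i ∈ Finset.range n, D.E p i) ≤ Y) (k s : ℕ) (hns : n = k + s) :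
    ∀ e r : ℕ, n = k + 1 + e + r → ∀ P : Ideal (MvPolynomial (Fin (n + 1)) ℚ), P.IsPrime → Hom P →
      k + 1 + e + 1 ≤ dimQ P → ∀ a' c : ℕ, ∀ F : Finset ι, (∀ p ∈ F, Van D P p) →
      (∀ p ∈ F, ∑ i ∈ Finset.range r, D.E p i = a') →
      (∀ p ∈ F, ∑ i ∈ Finset.range s, D.E p i = a' + c) →
      A P (k + 1 + e) (F.card / (Kc n (k + 1 + e) * Y ^ (k + 1) *
        2 ^ (e * a' + (k + 1 + e) * c))) := by
  intro e
  induction e with
  | zero =>
    intro r hr P hP hhom hdim a' c F hF ha hac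
    rcases F.eq_empty_or_nonempty with hF0 | hF0
    · subst hF0
      apply A_nonpos; simp
    have hYpos : 0 < Y := by
      obtain ⟨p0, _⟩ := hF0
      exact lt_of_lt_of_le (by positivity) (hY p0)
    have hs : s = r + 1 := by omega
    subst hs
    have hstep := step D k r c a' (by omega) P hP hhom (by omega) F hF
      (fun p hp => by
        have h1 := hac p hp
        rw [Finset.sum_range_succ, ha p hp] at h1
        omega) ha
      (Kc n k * Y ^ (k + 1) / 2 ^ (a' + c)) (by have := Kc_pos n k; positivity) (by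
        intro Z hZ hZhom hZdim F' hF' hvan
        exact phase1 D Y hY k (r + 1) (by omega) Z hZ hZhom hZdim (a' + c) F' hvan
          (fun p hp => hac p (hF' hp)))
    refine hstep.mono ?_
    have hK := Kc_pos n k
    have hC := Cn_pos n
    have h1 : Kc n k * Y ^ (k + 1) / 2 ^ (a' + c) * (Cn n * 2 ^ ((k + 2) * c + a')) =
        Kc n k * Cn n * Y ^ (k + 1) * 2 ^ ((k + 1) * c) := by
      rw [div_mul_eq_mul_div, div_eq_iff (by positivity)]
      have h2 : (2 : ℝ) ^ ((k + 2) * c + a') = 2 ^ ((k + 1) * c) * 2 ^ (a' + c) := by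
        rw [← pow_add]; congr 1; ring
      rw [h2]; ring
    rw [h1]
    simp only [zero_mul, zero_add, add_zero]
    rw [Kc_succ]
    apply div_le_div_of_nonneg_left (Nat.cast_nonneg _) (by positivity)
    have h5 : 0 ≤ Kc n k * Cn n * Y ^ (k + 1) * 2 ^ ((k + 1) * c) := by positivity
    calc Kc n k * Cn n * Y ^ (k + 1) * 2 ^ ((k + 1) * c) ≤
        2 * (Kc n k * Cn n * Y ^ (k + 1) * 2 ^ ((k + 1) * c)) := by linarith
      _ = _ := by ring
  | succ e ih =>
    intro r hr P hP hhom hdim a' c F hF ha hac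
    rcases F.eq_empty_or_nonempty with hF0 | hF0
    · subst hF0
      apply A_nonpos; simp
    have hYpos : 0 < Y := by
      obtain ⟨p0, _⟩ := hF0
      exact lt_of_lt_of_le (by positivity) (hY p0)
    have hsplit : ∀ p ∈ F, (e + 2) * D.E p r ≤ c := by
      intro p hp
      have h1 : ∑ i ∈ Finset.range s, D.E p i = ∑ i ∈ Finset.range r, D.E p i +
          ∑ j ∈ Finset.range (e + 2), D.E p (r + j) := by
        rw [← Finset.sum_range_add]
        congr 2
        omega
      rw [hac p hp, ha p hp] at h1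
      have h2 : ∑ j ∈ Finset.range (e + 2), D.E p r ≤ ∑ j ∈ Finset.range (e + 2), D.E p (r + j) := by
        refine Finset.sum_le_sum fun j hj => ?_
        rw [Finset.mem_range] at hj
        exact D.mono p r (r + j) (by omega) (by omega)
      rw [Finset.sum_const, Finset.card_range, smul_eq_mul] at h2
      omega
    obtain ⟨b, hb, hpig⟩ := pigeon F hF0 (fun p => D.E p r) (e + 2) (by omega) (2 ^ c) (by
      intro p hp
      exact pow_le_pow_right₀ (by norm_num) (hsplit p hp))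
    obtain ⟨c', hc'⟩ : ∃ c', c = b + c' := by
      obtain ⟨p, hp, hpb⟩ := Finset.mem_image.1 hb
      have h1 := hsplit p hp
      change D.E p r = b at hpb
      rw [hpb] at h1
      exact ⟨c - b, by nlinarith [Nat.sub_add_cancel (show b ≤ c by nlinarith)]⟩
    have hstep := step D (k + 1 + e) r b a' (by omega) P hP hhom (by omega)
      (F.filter fun p => D.E p r = b) (fun p hp => hF p (Finset.mem_filter.1 hp).1)
      (fun p hp => (Finset.mem_filter.1 hp).2) (fun p hp => ha p (Finset.mem_filter.1 hp).1)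
      (Kc n (k + 1 + e) * Y ^ (k + 1) * 2 ^ (e * (a' + b) + (k + 1 + e) * c'))
      (by have := Kc_pos n (k + 1 + e); positivity) (by
        intro Z hZ hZhom hZdim F' hF' hvan
        refine ih (r + 1) (by omega) Z hZ hZhom hZdim (a' + b) c' F' hvan ?_ ?_
        · intro p hp
          have h1 := Finset.mem_filter.1 (hF' hp)
          rw [Finset.sum_range_succ, ha p h1.1, h1.2]
        · intro p hp
          have h1 := Finset.mem_filter.1 (hF' hp)
          rw [hac p h1.1, hc', add_assoc])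
    have hee : k + 1 + (e + 1) = k + 1 + e + 1 := by ring
    rw [hee]
    refine hstep.mono ?_
    have hK := Kc_pos n (k + 1 + e)
    have hC := Cn_pos n
    have h1 : Kc n (k + 1 + e) * Y ^ (k + 1) * 2 ^ (e * (a' + b) + (k + 1 + e) * c') *
        (Cn n * 2 ^ ((k + 1 + e + 2) * b + a')) =
        2 ^ ((e + 2) * b) * (Kc n (k + 1 + e) * Cn n * Y ^ (k + 1) *
          2 ^ ((e + 1) * a' + (k + 1 + e) * c)) := by
      have h2 : (2 : ℝ) ^ (e * (a' + b) + (k + 1 + e) * c') * 2 ^ ((k + 1 + e + 2) * b + a') =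
          2 ^ ((e + 2) * b) * 2 ^ ((e + 1) * a' + (k + 1 + e) * c) := by
        rw [← pow_add, ← pow_add]; congr 1; rw [hc']; ring
      calc _ = Kc n (k + 1 + e) * Y ^ (k + 1) * Cn n * (2 ^ (e * (a' + b) + (k + 1 + e) * c') *
            2 ^ ((k + 1 + e + 2) * b + a')) := by ring
        _ = _ := by rw [h2]; ring
    rw [h1]
    have h3 : (F.card : ℝ) / (Kc n (k + 1 + e + 1) * Y ^ (k + 1) *
        2 ^ ((e + 1) * a' + (k + 1 + e + 1) * c)) =
        (F.card : ℝ) / (2 * 2 ^ c) / (Kc n (k + 1 + e) * Cn n * Y ^ (k + 1) *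
          2 ^ ((e + 1) * a' + (k + 1 + e) * c)) := by
      rw [Kc_succ, div_div]
      congr 1
      have h4 : (2 : ℝ) ^ ((e + 1) * a' + (k + 1 + e + 1) * c) =
          2 ^ c * 2 ^ ((e + 1) * a' + (k + 1 + e) * c) := by
        rw [← pow_add]; congr 1; ring
      rw [h4]; ring
    rw [h3]
    exact (div_le_div_of_nonneg_right hpig (by positivity)).trans_eq (div_div _ _ _)

/-- comparing with the leading coefficient -/
theorem A_le (h : ℕ → ℝ) (e : ℕ) (ρ d : ℝ) (hρ : 0 ≤ ρ) (C : ℕ)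
    (hA : ∀ m : ℕ, ρ * (m.choose e : ℝ) ≤ h (C + m))
    (hd : Tendsto (fun m : ℕ => h m * (e.factorial : ℝ) / (m : ℝ) ^ e) atTop (𝓝 d)) : ρ ≤ d := by
  have h1 : Tendsto (fun m : ℕ => ρ * ((1 + 1 * (m : ℝ)) / (((C + e : ℕ) : ℝ) + 1 * (m : ℝ))) ^ e)
      atTop (𝓝 (ρ * (1 / 1) ^ e)) := by
    refine Tendsto.const_mul ρ (Tendsto.pow ?_ e)
    exact tendsto_add_mul_div_add_mul_atTop_nhds (𝕜 := ℝ) 1 ((C + e : ℕ) : ℝ) 1 one_ne_zero
  rw [div_one, one_pow, mul_one] at h1
  have h2 : Tendsto (fun m : ℕ => h (m + (C + e)) * (e.factorial : ℝ) /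
      (((m + (C + e) : ℕ) : ℝ)) ^ e) atTop (𝓝 d) :=
    hd.comp (tendsto_add_atTop_nat (C + e))
  refine le_of_tendsto_of_tendsto h1 h2 ?_
  filter_upwards [eventually_ge_atTop 1] with m hm
  have h3 : (0 : ℝ) < m := by exact_mod_cast hm
  have h4 : (0 : ℝ) < ((m + (C + e) : ℕ) : ℝ) := by push_cast; positivity
  have h5 : (((C + e : ℕ) : ℝ) + 1 * (m : ℝ)) = ((m + (C + e) : ℕ) : ℝ) := by push_cast; ring
  rw [h5, div_pow, mul_div_assoc']
  apply div_le_div_of_nonneg_right _ (by positivity)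
  have h6 := hA (m + e)
  have h7 : C + (m + e) = m + (C + e) := by ring
  rw [h7] at h6
  have h8 : (m + 1) ^ e ≤ (m + e).descFactorial e := by
    have := Nat.pow_sub_le_descFactorial (m + e) e
    rwa [show m + e + 1 - e = m + 1 by omega] at this
  rw [Nat.descFactorial_eq_factorial_mul_choose] at h8
  have h9 : ((m : ℝ) + 1) ^ e ≤ (e.factorial : ℝ) * ((m + e).choose e : ℝ) := by
    exact_mod_cast h8
  calc ρ * (1 + 1 * (m : ℝ)) ^ e = ρ * ((m : ℝ) + 1) ^ e := by ring
    _ ≤ ρ * ((e.factorial : ℝ) * ((m + e).choose e : ℝ)) := by gcongr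
    _ = (ρ * ((m + e).choose e : ℝ)) * (e.factorial : ℝ) := by ring
    _ ≤ _ := by gcongr

/-- the growth constant of the polynomial ring -/
theorem A_bot_le {n : ℕ} (P : Ideal (MvPolynomial (Fin (n + 1)) ℚ)) (ρ : ℝ) (hρ : 0 ≤ ρ)
    (h : A P n ρ) : ρ ≤ n.factorial := by
  obtain ⟨C, hC⟩ := h
  refine A_le (fun m => ((m : ℝ) + 1) ^ n) n ρ n.factorial hρ C (fun m => ?_) ?_
  · refine (hC m).trans ?_
    have := hilb_le n P (C + m)
    exact_mod_cast this
  · have h1 : Tendsto (fun m : ℕ => (n.factorial : ℝ) * ((1 + 1 * (m : ℝ)) / (0 + 1 * (m : ℝ))) ^ n)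
        atTop (𝓝 ((n.factorial : ℝ) * (1 / 1) ^ n)) := by
      refine Tendsto.const_mul _ (Tendsto.pow ?_ n)
      exact tendsto_add_mul_div_add_mul_atTop_nhds (𝕜 := ℝ) 1 0 1 one_ne_zero
    rw [div_one, one_pow, mul_one] at h1
    refine h1.congr fun m => ?_
    rw [zero_add, one_mul, div_pow, mul_div_assoc']
    congr 1
    ring

/-- the polynomial ring has dimension `n + 1` -/
lemma dimQ_bot (N : ℕ) : dimQ (⊥ : Ideal (MvPolynomial (Fin N) ℚ)) = N := by
  have h0 : Function.Injective (Ideal.Quotient.mkₐ ℚ (⊥ : Ideal (MvPolynomial (Fin N) ℚ))) := by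
    rw [injective_iff_map_eq_zero]
    intro a ha
    exact Ideal.Quotient.eq_zero_iff_mem.1 ha
  have h1 := _root_.trdeg_le_of_injective _ h0
  have h2 := _root_.trdeg_le_of_surjective (Ideal.Quotient.mkₐ ℚ (⊥ : Ideal (MvPolynomial (Fin N) ℚ)))
    (Ideal.Quotient.mkₐ_surjective ℚ _)
  have h3 := le_antisymm h1 h2
  unfold dimQ
  rw [← h3, MvPolynomial.trdeg_of_isDomain]
  simp

/-- the number of points with given partial size -/
theorem low_count {n : ℕ} {ι : Type} (D : Data n ι) (Y : ℝ)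
    (hY0 : 0 ≤ Y)
    (hY : ∀ p, (2 : ℝ) ^ (∑ i ∈ Finset.range n, D.E p i) ≤ Y) (k s : ℕ) (hns : n = k + s)
    (a : ℕ) (F : Finset ι) (hF : ∀ p ∈ F, ∑ i ∈ Finset.range s, D.E p i = a) :
    (F.card : ℝ) ≤ n.factorial * Kc n n * Y ^ (k + 1) * 2 ^ (n * a) := by
  rcases F.eq_empty_or_nonempty with hF0 | hF0
  · subst hF0
    have := Kc_pos n n
    rw [Finset.card_empty, Nat.cast_zero]
    positivity
  have hYpos : 0 < Y := by
    obtain ⟨p0, _⟩ := hF0
    exact lt_of_lt_of_le (by positivity) (hY p0)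
  have hK := Kc_pos n n
  have hvan : ∀ p ∈ F, Van D ⊥ p := by
    intro p _ f hf
    rw [Ideal.mem_bot.1 hf, map_zero]
  have hA : A (⊥ : Ideal (MvPolynomial (Fin (n + 1)) ℚ)) n
      (F.card / (Kc n n * Y ^ (k + 1) * 2 ^ (n * a))) := by
    rcases Nat.eq_zero_or_pos s with hs | hs
    · subst hs
      rw [add_zero] at hns
      subst hns
      obtain ⟨p0, hp0⟩ := hF0
      have ha0 : a = 0 := by
        rw [← hF p0 hp0]; simp
      subst ha0
      have := phase1 D Y hY n 0 rfl ⊥ Ideal.isPrime_bot hom_bot (by rw [dimQ_bot]) 0 F hvan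
        (by intro p _; simp)
      simpa using this
    · obtain ⟨s, rfl⟩ : ∃ s', s = s' + 1 := ⟨s - 1, by omega⟩
      have := phase2 D Y hY k (s + 1) hns s 0 (by omega) ⊥ Ideal.isPrime_bot hom_bot
        (by rw [dimQ_bot]; omega) 0 a F hvan (by intro p _; simp) (by simpa using hF)
      have hn : k + 1 + s = n := by omega
      rw [hn] at this
      simpa using this
  have h1 := A_bot_le _ _ (by positivity) hA
  rw [div_le_iff₀ (by positivity)] at h1
  calc (F.card : ℝ) ≤ _ := h1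
    _ = _ := by ring

end Pool.Agent.X330.SZ
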