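import Pool.Agent.X330.SZ.Growth
import Pool.Agent.X330.SZ.Phase
import Pool.Agent.H92R2.UHilb

/-!
The Hilbert polynomial and the degree.
-/

set_option autoImplicit false

open MvPolynomial Filter Topology

namespace Pool.Agent.X330.SZ

variable {N : ℕ}

/-- `Q` is the Hilbert polynomial of `I` -/
def IsHilbPoly (I : Ideal (MvPolynomial (Fin N) ℚ)) (Q : Polynomial ℚ) : Prop :=
  ∀ᶠ m : ℕ in atTop, (hilb I m : ℚ) = Q.eval (m : ℚ)

theorem fr {F V W : Type*} [Field F] [AddCommGroup V] [Module F V] [AddCommGroup W] [Module F W]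
    (f : V →ₗ[F] W) (K : Submodule F V) [FiniteDimensional F K] :
    Module.finrank F (K.map f) + Module.finrank F (K ⊓ LinearMap.ker f : Submodule F V) =
      Module.finrank F K := by
  have h1 := LinearMap.finrank_range_add_finrank_ker (f.domRestrict K)
  have h2 : LinearMap.range (f.domRestrict K) = K.map f := by
    ext y
    constructor
    · rintro ⟨x, rfl⟩; exact ⟨x, x.2, rfl⟩
    · rintro ⟨x, hx, rfl⟩; exact ⟨⟨x, hx⟩, rfl⟩
  have h3 : (LinearMap.ker (f.domRestrict K)).map K.subtype = K ⊓ LinearMap.ker f := by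
    ext y
    constructor
    · rintro ⟨x, hx, rfl⟩; exact ⟨x.2, hx⟩
    · rintro ⟨hy, hy2⟩; exact ⟨⟨y, hy⟩, hy2, rfl⟩
  rw [h2] at h1
  rw [← h3, ← h1]
  congr 1
  exact (Submodule.equivMapOfInjective _ (Submodule.injective_subtype _) _).symm.finrank_eq

lemma hc_mul_X (i : Fin N) (f : MvPolynomial (Fin N) ℚ) (m : ℕ) :
    homogeneousComponent (1 + m) (X i * f) = X i * homogeneousComponent m f := by
  have hX : (X i : MvPolynomial (Fin N) ℚ).IsHomogeneous 1 := isHomogeneous_X ℚ i
  have hexp : X i * f = ∑ j ∈ Finset.range (f.totalDegree + 1), X i * homogeneousComponent j f := by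
    rw [← Finset.mul_sum, sum_homogeneousComponent]
  have hcomp : ∀ j, homogeneousComponent (1 + m) (X i * homogeneousComponent j f) =
      if 1 + m = 1 + j then X i * homogeneousComponent j f else 0 := by
    intro j
    have hmem : X i * homogeneousComponent j f ∈ homogeneousSubmodule (Fin N) ℚ (1 + j) := by
      rw [mem_homogeneousSubmodule]
      exact hX.mul (homogeneousComponent_isHomogeneous j f)
    rw [homogeneousComponent_of_mem hmem]
  conv_lhs => rw [hexp, map_sum, Finset.sum_congr rfl (fun j _ => hcomp j)]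
  by_cases hm : m ∈ Finset.range (f.totalDegree + 1)
  · rw [Finset.sum_eq_single m]
    · rw [if_pos rfl]
    · intro j _ hj
      rw [if_neg (by omega)]
    · intro h; exact absurd hm h
  · rw [Finset.sum_eq_zero, homogeneousComponent_eq_zero, mul_zero]
    · rw [Finset.mem_range] at hm; omega
    · intro j hj
      rw [if_neg]
      intro h
      apply hm
      rwa [show m = j by omega]

theorem proj (N : ℕ) : H92U.Proj (k := ℚ) (Z := MvPolynomial (Fin N) ℚ) N
    (fun l => homogeneousComponent l) where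
  zero i z := by
    rw [homogeneousComponent_zero, smul_eq_mul]
    have : coeff 0 (X i * z) = 0 := by
      rw [← constantCoeff_eq, map_mul, constantCoeff_X, zero_mul]
    rw [this, C_0]
  succ i l z := by
    rw [smul_eq_mul, smul_eq_mul, add_comm l 1]
    exact hc_mul_X i z l

theorem fam {N : ℕ} (K : Ideal (MvPolynomial (Fin N) ℚ)) :
    H92U.Fam (k := ℚ) (Z := MvPolynomial (Fin N) ℚ) N
      (fun l => homogeneousComponent l)
      (fun n => homogeneousSubmodule (Fin N) ℚ n ⊓ K.restrictScalars ℚ) where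
  hom n := by
    rintro f ⟨hf, _⟩
    refine ⟨?_, fun j hj => ?_⟩
    · rw [homogeneousComponent_of_mem hf, if_pos rfl]
    · rw [homogeneousComponent_of_mem hf, if_neg hj]
  X i n z := by
    rintro ⟨hz, hz2⟩
    rw [smul_eq_mul]
    refine ⟨?_, K.mul_mem_left _ hz2⟩
    have := (isHomogeneous_X ℚ i).mul hz
    rw [add_comm 1 n] at this
    exact this

lemma hilb_add (K : Ideal (MvPolynomial (Fin N) ℚ)) (t : ℕ) :
    hilb K t + Module.finrank ℚ (homogeneousSubmodule (Fin N) ℚ t ⊓ K.restrictScalars ℚ :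
      Submodule ℚ (MvPolynomial (Fin N) ℚ)) =
      Module.finrank ℚ (homogeneousSubmodule (Fin N) ℚ t) := by
  have h1 := fr (Ideal.Quotient.mkₐ ℚ K).toLinearMap (homogeneousSubmodule (Fin N) ℚ t)
  have h2 : LinearMap.ker (Ideal.Quotient.mkₐ ℚ K).toLinearMap = K.restrictScalars ℚ := by
    ext x
    rw [LinearMap.mem_ker, Submodule.restrictScalars_mem]
    exact Ideal.Quotient.eq_zero_iff_mem
  rw [h2] at h1
  exact h1

theorem exists_hilbPoly (K : Ideal (MvPolynomial (Fin N) ℚ)) : ∃ Q, IsHilbPoly K Q := by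
  obtain ⟨Q1, _, h1⟩ := H92U.hilbert_poly' (proj N) (fam (N := N) ⊤)
  obtain ⟨Q2, _, h2⟩ := H92U.hilbert_poly' (proj N) (fam (N := N) K)
  refine ⟨Q1 - Q2, ?_⟩
  unfold IsHilbPoly
  filter_upwards [h1, h2] with t ht1 ht2
  have h3 := hilb_add K t
  have h4 : homogeneousSubmodule (Fin N) ℚ t ⊓
      (⊤ : Ideal (MvPolynomial (Fin N) ℚ)).restrictScalars ℚ =
      homogeneousSubmodule (Fin N) ℚ t := by
    apply le_antisymm inf_le_left
    intro f hf
    exact ⟨hf, Submodule.mem_top⟩
  rw [h4] at ht1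
  rw [Polynomial.eval_sub, ← ht1, ← ht2, ← h3]
  push_cast
  ring

/-- the Hilbert polynomial -/
noncomputable def hilbPoly (I : Ideal (MvPolynomial (Fin N) ℚ)) : Polynomial ℚ :=
  (exists_hilbPoly I).choose

lemma hilbPoly_spec (I : Ideal (MvPolynomial (Fin N) ℚ)) : IsHilbPoly I (hilbPoly I) :=
  (exists_hilbPoly I).choose_spec

/-- uniqueness of the Hilbert polynomial -/
lemma hilbPoly_unique {I : Ideal (MvPolynomial (Fin N) ℚ)} {Q Q' : Polynomial ℚ}
    (h : IsHilbPoly I Q) (h' : IsHilbPoly I Q') : Q = Q' := by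
  refine Polynomial.eq_of_infinite_eval_eq Q Q' ?_
  unfold IsHilbPoly at h h'
  obtain ⟨M, hM⟩ := eventually_atTop.1 (h.and h')
  refine Set.Infinite.mono (s := (fun m : ℕ => ((m : ℕ) : ℚ)) '' Set.Ici M) ?_
    ((Set.Ici_infinite M).image Nat.cast_injective.injOn)
  rintro _ ⟨m, hm, rfl⟩
  have := hM m hm
  show Polynomial.eval (m : ℚ) Q = Polynomial.eval (m : ℚ) Q'
  rw [← this.1, ← this.2]

/-- the degree: factorial of the degree of the Hilbert polynomial times its leading coefficient -/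
noncomputable def degree (I : Ideal (MvPolynomial (Fin N) ℚ)) : ℚ :=
  ((hilbPoly I).natDegree.factorial : ℚ) * (hilbPoly I).leadingCoeff

lemma tendsto_coeff (Q : Polynomial ℝ) (k : ℕ) (hk : Q.natDegree ≤ k) :
    Tendsto (fun x : ℝ => Q.eval x / x ^ k) atTop (𝓝 (Q.coeff k)) := by
  rcases hk.lt_or_eq with h | h
  · have h1 := Polynomial.div_tendsto_atTop_zero_of_degree_lt Q (Polynomial.X ^ k) (by
      rw [Polynomial.degree_X_pow]
      exact lt_of_le_of_lt Polynomial.degree_le_natDegree (by exact_mod_cast h))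
    rw [Polynomial.coeff_eq_zero_of_natDegree_lt h]
    simpa using h1
  · by_cases hQ : Q = 0
    · subst hQ; simp
    have h1 := Polynomial.div_tendsto_atTop_leadingCoeff_div_of_degree_eq Q (Polynomial.X ^ k) (by
      rw [Polynomial.degree_X_pow, Polynomial.degree_eq_natDegree hQ, h])
    rw [Polynomial.leadingCoeff_X_pow, div_one, Polynomial.leadingCoeff, h] at h1
    simpa using h1

/-- degree and dimension -/
theorem degree_spec (P : Ideal (MvPolynomial (Fin N) ℚ)) (hP : P.IsPrime) (hhom : Hom P) (k : ℕ)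
    (hk : dimQ P = k + 1) : (hilbPoly P).natDegree = k ∧
      Tendsto (fun m : ℕ => (hilb P m : ℝ) * (k.factorial : ℝ) / (m : ℝ) ^ k) atTop
        (𝓝 ((degree P : ℚ) : ℝ)) ∧ (1 : ℝ) ≤ ((degree P : ℚ) : ℝ) := by
  obtain ⟨C, hC⟩ := hilb_upper P hP hhom k hk
  set Q := hilbPoly P with hQ
  let Qr : Polynomial ℝ := Q.map (algebraMap ℚ ℝ)
  have hQr : ∀ᶠ m : ℕ in atTop, (hilb P m : ℝ) = Qr.eval (m : ℝ) := by
    have := hilbPoly_spec P
    unfold IsHilbPoly at this
    filter_upwards [this] with m hm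
    have h1 : Qr.eval (m : ℝ) = ((Q.eval (m : ℚ) : ℚ) : ℝ) := by
      rw [show Qr = Q.map (algebraMap ℚ ℝ) from rfl]
      rw [show (m : ℝ) = algebraMap ℚ ℝ (m : ℚ) by simp, Polynomial.eval_map,
        Polynomial.eval₂_at_apply]
      rfl
    rw [h1, ← hm]
    simp
  have hnd : Qr.natDegree = Q.natDegree := Polynomial.natDegree_map _
  have hle : Q.natDegree ≤ k := by
    by_contra hgt
    push Not at hgt
    have h1 : Tendsto (fun x : ℝ => |Qr.eval x / (Polynomial.X ^ k : Polynomial ℝ).eval x|)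
        atTop atTop := by
      refine Polynomial.abs_div_tendsto_atTop_atTop_of_degree_gt _ _ ?_
        (pow_ne_zero _ Polynomial.X_ne_zero)
      rw [Polynomial.degree_X_pow, Polynomial.degree_eq_natDegree]
      · rw [hnd]; exact_mod_cast hgt
      · intro h0
        rw [h0, Polynomial.natDegree_zero] at hnd
        omega
    have h2 := h1.comp tendsto_natCast_atTop_atTop
    have h3 := h2.eventually (eventually_gt_atTop ((C : ℝ) * 2 ^ k))
    obtain ⟨m, hm1, hm2, hm3⟩ := (h3.and (hQr.and (eventually_ge_atTop 1))).exists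
    have hm0 : (0 : ℝ) < m := by exact_mod_cast hm3
    simp only [Function.comp_apply, Polynomial.eval_pow, Polynomial.eval_X] at hm1
    rw [← hm2, abs_of_nonneg (by positivity), lt_div_iff₀ (by positivity)] at hm1
    have h4 : (hilb P m : ℝ) ≤ C * ((m : ℝ) + 1) ^ k := by exact_mod_cast hC m
    have h5 : ((m : ℝ) + 1) ^ k ≤ (2 * m) ^ k := by
      apply pow_le_pow_left₀ (by positivity)
      have : (1 : ℝ) ≤ m := by exact_mod_cast hm3
      linarith
    have h6 : (C : ℝ) * ((m : ℝ) + 1) ^ k ≤ C * (2 * m) ^ k := by gcongr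
    rw [mul_pow] at h6
    linarith
  have hlim : Tendsto (fun m : ℕ => (hilb P m : ℝ) * (k.factorial : ℝ) / (m : ℝ) ^ k) atTop
      (𝓝 (Qr.coeff k * k.factorial)) := by
    have h1 := ((tendsto_coeff Qr k (hnd ▸ hle)).comp tendsto_natCast_atTop_atTop).mul_const
      (k.factorial : ℝ)
    refine h1.congr' ?_
    filter_upwards [hQr] with m hm
    rw [Function.comp_apply, ← hm]
    ring
  have hone : 1 ≤ Qr.coeff k * k.factorial := by
    obtain ⟨c, hc⟩ := A_one k P hP hhom (by omega)
    exact A_le (fun m => (hilb P m : ℝ)) k 1 _ zero_le_one c hc hlim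
  have hcoeff : Qr.coeff k ≠ 0 := by
    intro h0
    rw [h0, zero_mul] at hone
    linarith
  have hnk : Q.natDegree = k := by
    apply le_antisymm hle
    rw [← hnd]
    exact Polynomial.le_natDegree_of_ne_zero hcoeff
  have hdeg : ((degree P : ℚ) : ℝ) = Qr.coeff k * k.factorial := by
    unfold degree
    rw [← hQ, hnk, Polynomial.leadingCoeff, hnk, Polynomial.coeff_map]
    push_cast
    rw [mul_comm]
    rfl
  rw [hdeg]
  exact ⟨hnk, hlim, hone⟩

end Pool.Agent.X330.SZ
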