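import Pool.Agent.X330.SZ.Phase

/-!
The count of the points on a union of varieties.
-/

set_option autoImplicit false

open MvPolynomial Filter Topology

namespace Pool.Agent.X330.SZ

lemma half_sum (a J : ℕ) : ∑ j ∈ Finset.range J, (1 : ℝ) / 2 ^ (a + 1 + j) ≤ 1 / 2 ^ a := by
  have h : ∑ j ∈ Finset.range J, (1 : ℝ) / 2 ^ (a + 1 + j) = 1 / 2 ^ a - 1 / 2 ^ (a + J) := by
    induction J with
    | zero => simp
    | succ J ih =>
      rw [Finset.sum_range_succ, ih]
      have h1 : (2 : ℝ) ^ (a + (J + 1)) = 2 * 2 ^ (a + J) := by ring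
      have h2 : (2 : ℝ) ^ (a + 1 + J) = 2 * 2 ^ (a + J) := by ring
      rw [h1, h2]
      have h3 : (0 : ℝ) < 2 ^ (a + J) := by positivity
      field_simp
      ring
  rw [h]
  have : (0 : ℝ) ≤ 1 / 2 ^ (a + J) := by positivity
  linarith

open scoped Classical in
/-- the main count -/
theorem main_count {n k s : ℕ} (hn : 1 ≤ n) (hns : n = k + s) {ι : Type} (D : Data n ι) (Y : ℝ)
    (hY0 : 0 ≤ Y) (hY : ∀ p, (2 : ℝ) ^ (∑ i ∈ Finset.range n, D.E p i) ≤ Y)
    (Ps : Finset (Ideal (MvPolynomial (Fin (n + 1)) ℚ)))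
    (hPs : ∀ P ∈ Ps, P.IsPrime ∧ Hom P ∧ k + 1 ≤ dimQ P)
    (deg : Ideal (MvPolynomial (Fin (n + 1)) ℚ) → ℝ)
    (hdeg : ∀ P ∈ Ps, ∀ ρ : ℝ, 0 ≤ ρ → A P k ρ → ρ ≤ deg P) (hdeg1 : ∀ P ∈ Ps, 1 ≤ deg P)
    (F : Finset ι) (hF : ∀ p ∈ F, ∃ P ∈ Ps, Van D P p) :
    (F.card : ℝ) ≤ (2 * n.factorial * Kc n n + 2 * Kc n k) *
      (∑ P ∈ Ps, deg P) ^ ((n : ℝ) / (n + 1)) * Y ^ (k + 1) := by
  have hKn := Kc_pos n n
  have hKk := Kc_pos n k
  have hd0 : 0 ≤ ∑ P ∈ Ps, deg P := Finset.sum_nonneg fun P hP => by linarith [hdeg1 P hP]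
  rcases F.eq_empty_or_nonempty with hF0 | ⟨p0, hp0⟩
  · subst hF0
    rw [Finset.card_empty, Nat.cast_zero]
    positivity
  set d : ℝ := ∑ P ∈ Ps, deg P with hd
  have hd1 : 1 ≤ d := by
    obtain ⟨P, hP, -⟩ := hF p0 hp0
    refine (hdeg1 P hP).trans ?_
    exact Finset.single_le_sum (f := deg) (fun P hP => by linarith [hdeg1 P hP]) hP
  set t : ℝ := d ^ ((1 : ℝ) / (n + 1)) with ht
  have ht1 : 1 ≤ t := Real.one_le_rpow hd1 (by positivity)
  have hn1 : ((n : ℝ) + 1) ≠ 0 := by positivity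
  have htn : t ^ n = d ^ ((n : ℝ) / (n + 1)) := by
    rw [ht, ← Real.rpow_natCast, ← Real.rpow_mul (by linarith)]
    congr 1
    field_simp
  have htd : t ^ n * t = d := by
    rw [← pow_succ, ht, ← Real.rpow_natCast, ← Real.rpow_mul (by linarith)]
    push_cast
    rw [one_div, inv_mul_cancel₀ hn1, Real.rpow_one]
  obtain ⟨a1, ha1, ha2⟩ := exists_nat_pow_near ht1 (one_lt_two)
  let β : ι → ℕ := fun p => ∑ i ∈ Finset.range s, D.E p i
  choose! Pp hPp1 hPp2 using hF
  -- low part
  have hlow : ((F.filter fun p => β p ≤ a1).card : ℝ) ≤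
      2 * n.factorial * Kc n n * t ^ n * Y ^ (k + 1) := by
    have h1 := Finset.card_eq_sum_card_fiberwise (f := β) (s := F.filter fun p => β p ≤ a1)
      (t := Finset.range (a1 + 1)) (fun p hp => by
        rw [Finset.mem_coe, Finset.mem_filter] at hp
        rw [Finset.mem_coe, Finset.mem_range]
        omega)
    rw [h1]
    push_cast
    have h2 : ∀ a ∈ Finset.range (a1 + 1),
        (((F.filter fun p => β p ≤ a1).filter fun p => β p = a).card : ℝ) ≤
        n.factorial * Kc n n * Y ^ (k + 1) * 2 ^ (n * a) := by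
      intro a _
      exact low_count D Y hY0 hY k s hns a _ (fun p hp => (Finset.mem_filter.1 hp).2)
    refine (Finset.sum_le_sum h2).trans ?_
    rw [← Finset.mul_sum]
    have h3 := geom_sum_le n hn a1
    have h4 : (2 : ℝ) ^ (n * a1) ≤ t ^ n := by
      rw [mul_comm, pow_mul]
      gcongr
    calc (n.factorial : ℝ) * Kc n n * Y ^ (k + 1) * ∑ i ∈ Finset.range (a1 + 1), 2 ^ (n * i) ≤
          (n.factorial : ℝ) * Kc n n * Y ^ (k + 1) * (2 * t ^ n) := by
            gcongr
            linarith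
      _ = _ := by ring
  -- high part
  have hhigh : ((F.filter fun p => ¬ β p ≤ a1).card : ℝ) ≤ 2 * Kc n k * t ^ n * Y ^ (k + 1) := by
    let J := F.sup β
    have h1 := Finset.card_eq_sum_card_fiberwise (f := Pp) (s := F.filter fun p => ¬ β p ≤ a1)
      (t := Ps) (fun p hp => by
        rw [Finset.mem_coe, Finset.mem_filter] at hp
        exact hPp1 p hp.1)
    rw [h1]
    push_cast
    have h2 : ∀ P ∈ Ps, (((F.filter fun p => ¬ β p ≤ a1).filter fun p => Pp p = P).card : ℝ) ≤
        deg P * (Kc n k * Y ^ (k + 1) * (1 / 2 ^ a1)) := by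
      intro P hP
      have h3 := Finset.card_eq_sum_card_fiberwise (f := fun p => β p - (a1 + 1))
        (s := (F.filter fun p => ¬ β p ≤ a1).filter fun p => Pp p = P)
        (t := Finset.range (J + 1)) (fun p hp => by
          rw [Finset.mem_coe, Finset.mem_filter, Finset.mem_filter] at hp
          rw [Finset.mem_coe, Finset.mem_range]
          have : β p ≤ J := Finset.le_sup hp.1.1
          show β p - (a1 + 1) < J + 1
          omega)
      rw [h3]
      push_cast
      have h4 : ∀ j ∈ Finset.range (J + 1),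
          ((((F.filter fun p => ¬ β p ≤ a1).filter fun p => Pp p = P).filter
            fun p => β p - (a1 + 1) = j).card : ℝ) ≤
          deg P * (Kc n k * Y ^ (k + 1)) * (1 / 2 ^ (a1 + 1 + j)) := by
        intro j _
        set G := ((F.filter fun p => ¬ β p ≤ a1).filter fun p => Pp p = P).filter
            fun p => β p - (a1 + 1) = j with hG
        have hGm : ∀ p ∈ G, p ∈ F ∧ Pp p = P ∧ β p = a1 + 1 + j := by
          intro p hp
          rw [hG, Finset.mem_filter, Finset.mem_filter, Finset.mem_filter] at hp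
          exact ⟨hp.1.1.1, hp.1.2, by omega⟩
        rcases G.eq_empty_or_nonempty with hG0 | ⟨p1, hp1⟩
        · rw [hG0, Finset.card_empty, Nat.cast_zero]
          have := hdeg1 P hP
          positivity
        have hYpos : 0 < Y := lt_of_lt_of_le (by positivity) (hY p1)
        obtain ⟨hprime, hhom, hdim⟩ := hPs P hP
        have hA := phase1 D Y hY k s hns P hprime hhom hdim (a1 + 1 + j) G
          (fun p hp => by
            have := hGm p hp
            have h5 := hPp2 p this.1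
            rwa [this.2.1] at h5)
          (fun p hp => (hGm p hp).2.2)
        have h6 := hdeg P hP _ (by positivity) hA
        rw [div_le_iff₀ (by positivity)] at h6
        refine h6.trans (le_of_eq ?_)
        ring
      refine (Finset.sum_le_sum h4).trans ?_
      rw [← Finset.mul_sum]
      have h5 := half_sum a1 (J + 1)
      have h6 := hdeg1 P hP
      calc deg P * (Kc n k * Y ^ (k + 1)) * ∑ j ∈ Finset.range (J + 1), 1 / 2 ^ (a1 + 1 + j) ≤
            deg P * (Kc n k * Y ^ (k + 1)) * (1 / 2 ^ a1) := by gcongr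
        _ = _ := by ring
    refine (Finset.sum_le_sum h2).trans ?_
    rw [← Finset.sum_mul, ← hd]
    have h7 : d * (1 / 2 ^ a1) ≤ 2 * t ^ n := by
      rw [mul_one_div, div_le_iff₀ (by positivity), ← htd]
      have h8 : t ≤ 2 * 2 ^ a1 := by rw [← pow_succ']; exact ha2.le
      have h9 : 0 ≤ t ^ n := by positivity
      nlinarith
    calc d * (Kc n k * Y ^ (k + 1) * (1 / 2 ^ a1)) = (Kc n k * Y ^ (k + 1)) * (d * (1 / 2 ^ a1)) := by
          ring
      _ ≤ (Kc n k * Y ^ (k + 1)) * (2 * t ^ n) := by gcongr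
      _ = _ := by ring
  have hsplit := Finset.card_filter_add_card_filter_not (s := F) (fun p => β p ≤ a1)
  have hsplit' : ((F.filter fun p => β p ≤ a1).card : ℝ) + ((F.filter fun p => ¬ β p ≤ a1).card : ℝ) =
      F.card := by exact_mod_cast hsplit
  rw [← hsplit', ← htn]
  calc _ ≤ 2 * n.factorial * Kc n n * t ^ n * Y ^ (k + 1) + 2 * Kc n k * t ^ n * Y ^ (k + 1) :=
        add_le_add hlow hhigh
    _ = _ := by ring

end Pool.Agent.X330.SZ
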