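import Mathlib

/-!
Dimension theory used for the projective Schwartz-Zippel bound: components of hypersurface
sections, and linear forms in a prime ideal.
-/

set_option autoImplicit false

open MvPolynomial

namespace Pool.Agent.X330.SZ

variable {K : Type} [Field K]

/-- The transcendence degree of a polynomial ring modulo a nonzero nonunit polynomial. -/
theorem trdeg_mod {s : ℕ} {p : MvPolynomial (Fin s) K} (hp0 : p ≠ 0) (hp : ¬ IsUnit p)
    {J : Ideal (MvPolynomial (Fin s) K)} (hJ : J ≤ Ideal.span {p}) :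
    (s : Cardinal) ≤ Algebra.trdeg K (MvPolynomial (Fin s) K ⧸ J) + 1 := by
  obtain ⟨t, ht⟩ : ∃ t, t ∈ p.vars := by
    by_contra hn
    push Not at hn
    have h1 : p.vars = ∅ := Finset.eq_empty_of_forall_notMem hn
    rw [vars_eq_empty_iff_eq_C] at h1
    apply hp
    rw [h1]
    refine IsUnit.map C (isUnit_iff_ne_zero.2 fun h => hp0 ?_)
    rw [h1, h, C_0]
  have ht' : p.degreeOf t ≠ 0 := mem_vars_iff_degreeOf_ne_zero.1 ht
  have h1 : Function.Injective ((Ideal.Quotient.mkₐ K J).comp
      (rename (Subtype.val : {j : Fin s // j ≠ t} → Fin s) :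
        MvPolynomial {j : Fin s // j ≠ t} K →ₐ[K] MvPolynomial (Fin s) K)) := by
    rw [injective_iff_map_eq_zero]
    intro a ha
    have h2 : rename (Subtype.val : {j : Fin s // j ≠ t} → Fin s) a ∈ J :=
      Ideal.Quotient.eq_zero_iff_mem.1 ha
    obtain ⟨g, hg⟩ := Ideal.mem_span_singleton.1 (hJ h2)
    by_contra ha0
    have h3 : rename (Subtype.val : {j : Fin s // j ≠ t} → Fin s) a ≠ 0 := fun h => ha0 <|
      rename_injective _ Subtype.val_injective (by rw [h, map_zero])
    have hg0 : g ≠ 0 := fun h => h3 (by rw [hg, h, mul_zero])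
    have h4 := degreeOf_mul_eq (n := t) hp0 hg0
    rw [← hg] at h4
    have h5 : (rename (Subtype.val : {j : Fin s // j ≠ t} → Fin s) a).degreeOf t ≠ 0 := by
      omega
    rw [← mem_vars_iff_degreeOf_ne_zero] at h5
    obtain ⟨i, -, hi⟩ := mem_vars_rename _ _ h5
    exact i.2 hi
  have h2 := _root_.trdeg_le_of_injective _ h1
  rw [MvPolynomial.trdeg_of_isDomain] at h2
  have h3 : Fintype.card {j : Fin s // j ≠ t} + 1 = s := by
    have := t.pos
    rw [Fintype.card_subtype_compl, Fintype.card_subtype_eq, Fintype.card_fin]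
    omega
  calc (s : Cardinal) = ((Fintype.card {j : Fin s // j ≠ t} + 1 : ℕ) : Cardinal) := by rw [h3]
    _ = Cardinal.lift (Cardinal.mk {j : Fin s // j ≠ t}) + 1 := by
        rw [Cardinal.mk_fintype, Cardinal.lift_natCast]; push_cast; rfl
    _ ≤ _ := by gcongr

/-- The main case: a domain. -/
theorem trdeg_section {A : Type} [CommRing A] [IsDomain A] [Algebra K A] [Algebra.FiniteType K A]
    (f : A) (q : Ideal A) (hq : q ∈ (Ideal.span {f}).minimalPrimes) :
    Algebra.trdeg K A ≤ Algebra.trdeg K (A ⧸ q) + 1 := by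
  obtain ⟨s, g, hg, hi⟩ := exists_integral_inj_algHom_of_fg K A
  have hnoeth : IsNoetherianRing A := Algebra.FiniteType.isNoetherianRing K A
  have hqp : q.IsPrime := hq.1.1
  have hh := Ideal.height_le_one_of_isPrincipal_of_mem_minimalPrimes (Ideal.span {f}) q hq
  let alg : Algebra (MvPolynomial (Fin s) K) A := g.toRingHom.toAlgebra
  have hmap : ∀ x, algebraMap (MvPolynomial (Fin s) K) A x = g x := fun x => rfl
  have tow : IsScalarTower K (MvPolynomial (Fin s) K) A :=
    IsScalarTower.of_algebraMap_eq fun x => by rw [hmap, AlgHom.commutes]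
  have fai : FaithfulSMul (MvPolynomial (Fin s) K) A :=
    (faithfulSMul_iff_algebraMap_injective _ _).2 hg
  have int : Algebra.IsIntegral (MvPolynomial (Fin s) K) A := ⟨hi⟩
  have ala : Algebra.IsAlgebraic (MvPolynomial (Fin s) K) A := inferInstance
  have hA : Algebra.trdeg K A = s := by
    rw [← _root_.trdeg_add_eq K (MvPolynomial (Fin s) K) (A := A),
      _root_.trdeg_eq_zero (R := MvPolynomial (Fin s) K) (A := A), add_zero,
      MvPolynomial.trdeg_of_isDomain]
    simp
  rw [hA]
  have hinj : Function.Injective (Ideal.quotientMapₐ (R₁ := K) q g le_rfl :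
      (MvPolynomial (Fin s) K ⧸ q.comap g) →ₐ[K] (A ⧸ q)) := Ideal.quotientMap_injective
  have h1 := _root_.trdeg_le_of_injective _ hinj
  refine le_trans ?_ (add_le_add_left h1 1)
  have hpr : (q.comap g).IsPrime := Ideal.comap_isPrime g q
  by_cases h0 : q.comap g = ⊥
  · refine le_trans ?_ (self_le_add_right _ _)
    have h2 : Function.Injective (Ideal.Quotient.mkₐ K (q.comap g)) := by
      rw [injective_iff_map_eq_zero]
      intro a ha
      have h3 : a ∈ q.comap g := Ideal.Quotient.eq_zero_iff_mem.1 ha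
      rwa [h0] at h3
    have h3 := _root_.trdeg_le_of_injective _ h2
    rw [MvPolynomial.trdeg_of_isDomain] at h3
    simpa using h3
  obtain ⟨p, hp, hpp⟩ := Ideal.IsPrime.exists_mem_prime_of_ne_bot hpr h0
  refine trdeg_mod hpp.ne_zero hpp.not_isUnit ?_
  have hspan : (Ideal.span {p}).IsPrime := (Ideal.span_singleton_prime hpp.ne_zero).2 hpp
  by_contra hle
  have hlt : Ideal.span {p} < q.comap g := by
    refine lt_of_le_not_ge ((Ideal.span_singleton_le_iff_mem _).2 hp) hle
  have : q.LiesOver (q.comap g) := ⟨rfl⟩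
  obtain ⟨P, hP, hPp, hPo⟩ := Ideal.exists_ideal_lt_liesOver_of_lt q hlt
  have hPb : (⊥ : Ideal A) < P := by
    rw [bot_lt_iff_ne_bot]
    intro hb
    have h2 := hPo.over
    have h3 : p ∈ P.under (MvPolynomial (Fin s) K) := by
      rw [← h2]; exact Ideal.mem_span_singleton_self p
    rw [hb] at h3
    have h4 : g p = 0 := h3
    exact hpp.ne_zero (hg (by rw [h4, map_zero]))
  have h5 := (Ideal.height_le_iff (n := 1)).1 (by exact_mod_cast hh) P hPp hP
  have h6 : P.height ≤ 0 := by
    rw [Nat.cast_one, Order.lt_one_iff] at h5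
    exact h5.le
  have h7 := (Ideal.height_le_iff (n := 0)).1 (by exact_mod_cast h6) ⊥ Ideal.isPrime_bot hPb
  exact absurd h7 not_lt_zero

/-- dimension of the affine cone of `P` -/
noncomputable def dimQ {N : ℕ} (P : Ideal (MvPolynomial (Fin N) K)) : ℕ :=
  Cardinal.toNat (Algebra.trdeg K (MvPolynomial (Fin N) K ⧸ P))

/-- components of hypersurface sections have codimension at most one -/
theorem dimQ_section {N : ℕ} (P Q : Ideal (MvPolynomial (Fin N) K)) (f : MvPolynomial (Fin N) K)
    (hP : P.IsPrime) (hQ : Q ∈ (P ⊔ Ideal.span {f}).minimalPrimes) : dimQ P ≤ dimQ Q + 1 := by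
  have hs : Function.Surjective (Ideal.Quotient.mk P) := Ideal.Quotient.mk_surjective
  have h1 : P ⊔ Ideal.span {f} =
      (Ideal.span {Ideal.Quotient.mk P f}).comap (Ideal.Quotient.mk P) := by
    rw [← Set.image_singleton, ← Ideal.map_span, Ideal.comap_map_of_surjective _ hs,
      ← RingHom.ker_eq_comap_bot, Ideal.mk_ker, sup_comm]
  rw [h1, Ideal.comap_minimalPrimes_eq_of_surjective hs] at hQ
  obtain ⟨q, hq, rfl⟩ := hQ
  have h2 := trdeg_section (K := K) _ q hq
  have h3 : Function.Surjective (Ideal.quotientMapₐ (R₁ := K) q (Ideal.Quotient.mkₐ K P) le_rfl :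
      (MvPolynomial (Fin N) K ⧸ q.comap (Ideal.Quotient.mkₐ K P)) →ₐ[K] _) :=
    Ideal.quotientMap_surjective (H := le_rfl) hs
  have h4 := _root_.trdeg_le_of_surjective _ h3
  have h5 : Algebra.trdeg K (MvPolynomial (Fin N) K ⧸ P) ≤
      Algebra.trdeg K (MvPolynomial (Fin N) K ⧸ q.comap (Ideal.Quotient.mk P)) + 1 :=
    h2.trans (add_le_add_left h4 1)
  have h6 : Algebra.trdeg K (MvPolynomial (Fin N) K ⧸ q.comap (Ideal.Quotient.mk P)) <
      Cardinal.aleph0 := trdeg_lt_aleph0_of_finiteType
  unfold dimQ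
  have h7 := Cardinal.toNat_le_toNat h5 (Cardinal.add_lt_aleph0 h6 Cardinal.one_lt_aleph0)
  rwa [Cardinal.toNat_add h6 Cardinal.one_lt_aleph0, Cardinal.one_toNat] at h7

/-- the linear map sending a vector to the class of the linear form -/
noncomputable def linMk {N : ℕ} (P : Ideal (MvPolynomial (Fin N) K)) :
    (Fin N → K) →ₗ[K] (MvPolynomial (Fin N) K ⧸ P) :=
  (Ideal.Quotient.mkₐ K P).toLinearMap ∘ₗ (Fintype.linearCombination K (X : Fin N → MvPolynomial (Fin N) K))

/-- independent linear forms in an ideal cut down the dimension -/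
theorem dimQ_forms {N q : ℕ} (P : Ideal (MvPolynomial (Fin N) K)) (hP : P.IsPrime)
    (v : Fin q → (Fin N → K)) (hv : LinearIndependent K v)
    (hmem : ∀ i, (∑ j, v i j • (X j : MvPolynomial (Fin N) K)) ∈ P) : dimQ P + q ≤ N := by
  have hker : q ≤ Module.finrank K (LinearMap.ker (linMk P)) := by
    have h1 : ∀ i, v i ∈ LinearMap.ker (linMk P) := by
      intro i
      rw [LinearMap.mem_ker]
      have : linMk P (v i) = Ideal.Quotient.mk P (∑ j, v i j • (X j : MvPolynomial (Fin N) K)) := by
        simp only [linMk, LinearMap.comp_apply, Fintype.linearCombination_apply]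
        rfl
      rw [this, Ideal.Quotient.eq_zero_iff_mem]
      exact hmem i
    have h2 : LinearIndependent K (fun i => (⟨v i, h1 i⟩ : LinearMap.ker (linMk P))) := by
      apply LinearIndependent.of_comp (Submodule.subtype _)
      exact hv
    have := h2.fintype_card_le_finrank
    simpa using this
  have hrk := LinearMap.finrank_range_add_finrank_ker (linMk P)
  rw [Module.finrank_fin_fun] at hrk
  set V := LinearMap.range (linMk P) with hV
  let b := Module.finBasis K V
  let s : Set (MvPolynomial (Fin N) K ⧸ P) := Set.range fun i => (b i : MvPolynomial (Fin N) K ⧸ P)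
  have hVs : ∀ x ∈ V, x ∈ Algebra.adjoin K s := by
    intro x hx
    have h1 : (⟨x, hx⟩ : V) = ∑ i, b.repr ⟨x, hx⟩ i • b i := (b.sum_repr _).symm
    have h2 : x = ∑ i, b.repr ⟨x, hx⟩ i • (b i : MvPolynomial (Fin N) K ⧸ P) := by
      have h3 := congrArg (Submodule.subtype V) h1
      rw [map_sum] at h3
      simp only [map_smul] at h3
      exact h3
    rw [h2]
    refine Subalgebra.sum_mem _ fun i _ => Subalgebra.smul_mem _ (Algebra.subset_adjoin ?_) _
    exact ⟨i, rfl⟩
  have htop : ∀ x : MvPolynomial (Fin N) K ⧸ P, x ∈ Algebra.adjoin K s := by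
    intro x
    obtain ⟨p, rfl⟩ := Ideal.Quotient.mk_surjective x
    induction p using MvPolynomial.induction_on with
    | C a =>
      exact (Algebra.adjoin K s).algebraMap_mem a
    | add p q hp hq => rw [map_add]; exact Subalgebra.add_mem _ hp hq
    | mul_X p i hp =>
      rw [map_mul]
      refine Subalgebra.mul_mem _ hp (hVs _ ⟨Pi.single i 1, ?_⟩)
      simp only [linMk, LinearMap.comp_apply, Fintype.linearCombination_apply_single, one_smul]
      rfl
  have halg : Algebra.IsAlgebraic (Algebra.adjoin K s) (MvPolynomial (Fin N) K ⧸ P) := by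
    refine ⟨fun x => ?_⟩
    exact isAlgebraic_algebraMap (⟨x, htop x⟩ : Algebra.adjoin K s)
  have hle : Algebra.trdeg K (MvPolynomial (Fin N) K ⧸ P) ≤ Cardinal.mk s :=
    Algebra.IsAlgebraic.trdeg_le_cardinalMk K s
  have hs : Cardinal.mk s ≤ Module.finrank K V := by
    have := Cardinal.mk_range_le (f := fun i => (b i : MvPolynomial (Fin N) K ⧸ P))
    simpa using this
  have h3 : dimQ P ≤ Module.finrank K V := by
    unfold dimQ
    have := Cardinal.toNat_le_toNat (hle.trans hs) (Cardinal.natCast_lt_aleph0)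
    rwa [Cardinal.toNat_natCast] at this
  omega

end Pool.Agent.X330.SZ
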