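import Pool.Agent.X330.SZ.Hil2
import Pool.Agent.Helper834.EC.Dim1

/-!
Upper and lower bounds for the Hilbert function of a homogeneous prime in terms of its dimension.
-/

set_option autoImplicit false

open MvPolynomial

namespace Pool.Agent.X330.SZ

variable {N : ℕ}

theorem krull_trdeg (P : Ideal (MvPolynomial (Fin N) ℚ)) (hP : P.IsPrime) :
    ringKrullDim (MvPolynomial (Fin N) ℚ ⧸ P) = dimQ P := by
  obtain ⟨s, h1, h2⟩ := Pool.Agent.Helper834.EC.exists_ringKrullDim_eq_trdeg ℚ
    (MvPolynomial (Fin N) ℚ ⧸ P)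
  rw [h1]
  unfold dimQ
  rw [h2, Cardinal.toNat_natCast]

theorem dimQ_lt {P P' : Ideal (MvPolynomial (Fin N) ℚ)} (hP : P.IsPrime) (hP' : P'.IsPrime)
    (h : P < P') : dimQ P' + 1 ≤ dimQ P := by
  obtain ⟨x, hx1, hx2⟩ := Set.exists_of_ssubset h
  have h1 : Ideal.Quotient.mk P x ∈ nonZeroDivisors (MvPolynomial (Fin N) ℚ ⧸ P) := by
    rw [mem_nonZeroDivisors_iff_ne_zero]
    exact fun h => hx2 (Ideal.Quotient.eq_zero_iff_mem.1 h)
  have h2 := ringKrullDim_quotient_succ_le_of_nonZeroDivisor h1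
  have hle : ∀ a ∈ Ideal.span {Ideal.Quotient.mk P x}, Ideal.Quotient.factor h.le a = 0 := by
    intro a ha
    obtain ⟨c, rfl⟩ := Ideal.mem_span_singleton'.1 ha
    rw [map_mul, Ideal.Quotient.factor_mk, Ideal.Quotient.eq_zero_iff_mem.2 hx1, mul_zero]
  let φ : ((MvPolynomial (Fin N) ℚ ⧸ P) ⧸ Ideal.span {Ideal.Quotient.mk P x}) →+*
      (MvPolynomial (Fin N) ℚ ⧸ P') :=
    Ideal.Quotient.lift (Ideal.span {Ideal.Quotient.mk P x}) (Ideal.Quotient.factor h.le) hle
  have h3 : Function.Surjective φ := by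
    apply Ideal.Quotient.lift_surjective_of_surjective
    exact Ideal.Quotient.factor_surjective h.le
  have h4 : ringKrullDim (MvPolynomial (Fin N) ℚ ⧸ P') ≤
      ringKrullDim ((MvPolynomial (Fin N) ℚ ⧸ P) ⧸ Ideal.span {Ideal.Quotient.mk P x}) :=
    ringKrullDim_le_of_surjective φ h3
  rw [krull_trdeg P' hP'] at h4
  rw [krull_trdeg P hP] at h2
  have h5 : ((dimQ P' : ℕ) : WithBot ℕ∞) + 1 ≤ (dimQ P : ℕ) := le_trans (by gcongr) h2
  exact_mod_cast h5

/-- multiplication by `a` from the quotient by `J` to the quotient by `I` -/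
lemma hilb_sub (I J : Ideal (MvPolynomial (Fin N) ℚ)) (hI : Hom I) (a : MvPolynomial (Fin N) ℚ)
    (d : ℕ) (ha : a ∈ homogeneousSubmodule (Fin N) ℚ d) (hJ : ∀ x ∈ J, a * x ∈ I) (m : ℕ) :
    hilb I m ≤ hilb (I ⊔ Ideal.span {a}) m + hilb J (m - d) := by
  obtain ⟨s, hs1, hs2⟩ := exists_section (I ⊔ Ideal.span {a}) m
  let μ0 : MvPolynomial (Fin N) ℚ →ₗ[ℚ] (MvPolynomial (Fin N) ℚ ⧸ I) :=
    (Ideal.Quotient.mkₐ ℚ I).toLinearMap ∘ₗ LinearMap.mulLeft ℚ a
  have hμ0 : ∀ x, μ0 x = Ideal.Quotient.mk I (a * x) := fun x => rfl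
  let μ : (MvPolynomial (Fin N) ℚ ⧸ J) →ₗ[ℚ] (MvPolynomial (Fin N) ℚ ⧸ I) :=
    Submodule.liftQ (J.restrictScalars ℚ) μ0 (by
      intro x hx
      rw [LinearMap.mem_ker, hμ0]
      exact Ideal.Quotient.eq_zero_iff_mem.2 (hJ x hx))
  have hμ : ∀ x, μ (Ideal.Quotient.mk J x) = Ideal.Quotient.mk I (a * x) := fun x => rfl
  let Ψ : (HS (I ⊔ Ideal.span {a}) m × HS J (m - d)) →ₗ[ℚ] (MvPolynomial (Fin N) ℚ ⧸ I) :=
    LinearMap.coprod ((Ideal.Quotient.mkₐ ℚ I).toLinearMap ∘ₗ s) (μ ∘ₗ Submodule.subtype _)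
  have hΨ : ∀ u v, Ψ (u, v) = Ideal.Quotient.mk I (s u) + μ v := fun u v => rfl
  have hle : HS I m ≤ LinearMap.range Ψ := by
    intro u hu
    obtain ⟨p, hp, rfl⟩ := Submodule.mem_map.1 hu
    let v : HS (I ⊔ Ideal.span {a}) m :=
      ⟨Ideal.Quotient.mk _ p, Submodule.mem_map.2 ⟨p, hp, rfl⟩⟩
    have h1 : p - s v ∈ I ⊔ Ideal.span {a} := by
      rw [← Ideal.Quotient.eq_zero_iff_mem, map_sub, hs2 v, sub_self]
    obtain ⟨i, hi, w, hw, hiw⟩ := Submodule.mem_sup.1 h1
    obtain ⟨c, rfl⟩ := Ideal.mem_span_singleton'.1 hw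
    have h2 : homogeneousComponent m (p - s v) = p - s v := by
      have : p - s v ∈ homogeneousSubmodule (Fin N) ℚ m := Submodule.sub_mem _ hp (hs1 v)
      rw [homogeneousComponent_of_mem this, if_pos rfl]
    obtain ⟨c', hc', hcc⟩ : ∃ c' ∈ homogeneousSubmodule (Fin N) ℚ (m - d),
        homogeneousComponent m (c * a) = a * c' := by
      have hexp : c * a = ∑ j ∈ Finset.range (c.totalDegree + 1),
          a * homogeneousComponent j c := by
        rw [← Finset.mul_sum, sum_homogeneousComponent, mul_comm]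
      have hcomp : ∀ j, homogeneousComponent m (a * homogeneousComponent j c) =
          if m = d + j then a * homogeneousComponent j c else 0 := by
        intro j
        have hmem : a * homogeneousComponent j c ∈ homogeneousSubmodule (Fin N) ℚ (d + j) := by
          rw [mem_homogeneousSubmodule] at ha ⊢
          exact ha.mul (homogeneousComponent_isHomogeneous j c)
        rw [homogeneousComponent_of_mem hmem]
      by_cases hmd : d ≤ m ∧ m - d ∈ Finset.range (c.totalDegree + 1)
      · refine ⟨homogeneousComponent (m - d) c, ?_, ?_⟩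
        · rw [mem_homogeneousSubmodule]; exact homogeneousComponent_isHomogeneous _ c
        · rw [hexp, map_sum, Finset.sum_congr rfl (fun j _ => hcomp j),
            Finset.sum_eq_single (m - d)]
          · rw [if_pos (by omega)]
          · intro j _ hj
            rw [if_neg (by omega)]
          · intro h; exact absurd hmd.2 h
      · refine ⟨0, Submodule.zero_mem _, ?_⟩
        rw [mul_zero, hexp, map_sum, Finset.sum_congr rfl (fun j _ => hcomp j)]
        refine Finset.sum_eq_zero fun j hj => ?_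
        rw [if_neg]
        intro h
        apply hmd
        refine ⟨by omega, ?_⟩
        rwa [show m - d = j by omega]
    refine ⟨(v, ⟨Ideal.Quotient.mk J c', Submodule.mem_map.2 ⟨c', hc', rfl⟩⟩), ?_⟩
    rw [hΨ, hμ]
    have h3 : p = s v + homogeneousComponent m i + a * c' := by
      rw [← hcc, add_assoc, ← map_add, hiw, h2]
      ring
    show _ = Ideal.Quotient.mk I p
    conv_rhs => rw [h3]
    rw [map_add, map_add, Ideal.Quotient.eq_zero_iff_mem.2 (hI i hi m), add_zero]
  have hfree0 : Module.Free ℚ (HS (I ⊔ Ideal.span {a}) m) := Module.Free.of_divisionRing _ _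
  have hfree1 : Module.Free ℚ (HS J (m - d)) := Module.Free.of_divisionRing _ _
  have h1 := Submodule.finrank_mono hle
  have h2 := LinearMap.finrank_range_le Ψ
  rw [Module.finrank_prod] at h2
  exact h1.trans h2

/-- polynomial growth of the sums of the Hilbert function -/
def Bd (I : Ideal (MvPolynomial (Fin N) ℚ)) (j : ℕ) : Prop :=
  ∃ C : ℕ, ∀ M : ℕ, ∑ m ∈ Finset.range M, hilb I m ≤ C * (M + 1) ^ j

lemma Bd.mono {I : Ideal (MvPolynomial (Fin N) ℚ)} {j j' : ℕ} (h : Bd I j) (hj : j ≤ j') :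
    Bd I j' := by
  obtain ⟨C, hC⟩ := h
  refine ⟨C, fun M => (hC M).trans ?_⟩
  exact Nat.mul_le_mul_left _ (Nat.pow_le_pow_right (by omega) hj)

/-- reduction to primes -/
lemma bd_of_primes (j : ℕ) (I : Ideal (MvPolynomial (Fin N) ℚ)) (hI : Hom I)
    (h : ∀ P : Ideal (MvPolynomial (Fin N) ℚ), P.IsPrime → Hom P → I ≤ P → Bd P j) : Bd I j := by
  induction I using WellFoundedGT.induction with
  | ind I ih =>
  by_cases htop : I = ⊤
  · subst htop
    refine ⟨0, fun M => ?_⟩
    rw [zero_mul, Nat.le_zero, Finset.sum_eq_zero]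
    intro m _
    have : Subsingleton (MvPolynomial (Fin N) ℚ ⧸ (⊤ : Ideal (MvPolynomial (Fin N) ℚ))) :=
      Ideal.Quotient.subsingleton_iff.2 rfl
    unfold hilb
    exact Module.finrank_zero_of_subsingleton
  by_cases hprime : I.IsPrime
  · exact h I hprime hI le_rfl
  obtain ⟨a, b, da, ha, db, hb, haI, hbI, habI⟩ : ∃ a b : MvPolynomial (Fin N) ℚ,
      ∃ da, a ∈ homogeneousSubmodule (Fin N) ℚ da ∧ ∃ db, b ∈ homogeneousSubmodule (Fin N) ℚ db ∧
        a ∉ I ∧ b ∉ I ∧ a * b ∈ I := by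
    by_contra hcon
    push Not at hcon
    apply hprime
    have hI2 := (hom_iff I).1 hI
    refine @Ideal.IsHomogeneous.isPrime_of_homogeneous_mem_or_mem _ _ _ _ _ _ _ _ _
      (homogeneousSubmodule (Fin N) ℚ) MvPolynomial.gradedAlgebra _ hI2 htop ?_
    rintro x y ⟨dx, hx⟩ ⟨dy, hy⟩ hxy
    by_contra hno
    push Not at hno
    exact hcon x y dx hx dy hy hno.1 hno.2 hxy
  have h1 : Bd (I ⊔ Ideal.span {a}) j := by
    refine ih _ ?_ (hI.sup_span ha) fun P hP hPh hle => h P hP hPh (le_sup_left.trans hle)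
    refine lt_of_le_of_ne le_sup_left fun he => haI ?_
    rw [he]
    exact Ideal.mem_sup_right (Ideal.mem_span_singleton_self a)
  have h2 : Bd (I ⊔ Ideal.span {b}) j := by
    refine ih _ ?_ (hI.sup_span hb) fun P hP hPh hle => h P hP hPh (le_sup_left.trans hle)
    refine lt_of_le_of_ne le_sup_left fun he => hbI ?_
    rw [he]
    exact Ideal.mem_sup_right (Ideal.mem_span_singleton_self b)
  have hJ : ∀ x ∈ I ⊔ Ideal.span {b}, a * x ∈ I := by
    intro x hx
    obtain ⟨i, hi, w, hw, rfl⟩ := Submodule.mem_sup.1 hx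
    obtain ⟨c, rfl⟩ := Ideal.mem_span_singleton'.1 hw
    rw [mul_add]
    refine I.add_mem (I.mul_mem_left _ hi) ?_
    rw [show a * (c * b) = c * (a * b) by ring]
    exact I.mul_mem_left _ habI
  obtain ⟨C1, hC1⟩ := h1
  obtain ⟨C2, hC2⟩ := h2
  have hshift : ∀ M, ∑ m ∈ Finset.range M, hilb (I ⊔ Ideal.span {b}) (m - da) ≤
      da * hilb (I ⊔ Ideal.span {b}) 0 + ∑ m ∈ Finset.range M, hilb (I ⊔ Ideal.span {b}) m := by
    intro M
    rcases le_total M da with hM | hM
    · have h3 : ∀ m ∈ Finset.range M, hilb (I ⊔ Ideal.span {b}) (m - da) =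
          hilb (I ⊔ Ideal.span {b}) 0 := by
        intro m hm
        rw [Finset.mem_range] at hm
        rw [show m - da = 0 by omega]
      rw [Finset.sum_congr rfl h3, Finset.sum_const, Finset.card_range, smul_eq_mul]
      exact (Nat.mul_le_mul_right _ hM).trans (Nat.le_add_right _ _)
    · obtain ⟨M', rfl⟩ := Nat.exists_eq_add_of_le hM
      rw [Finset.sum_range_add]
      have h3 : ∀ m ∈ Finset.range da, hilb (I ⊔ Ideal.span {b}) (m - da) =
          hilb (I ⊔ Ideal.span {b}) 0 := by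
        intro m hm
        rw [Finset.mem_range] at hm
        rw [show m - da = 0 by omega]
      rw [Finset.sum_congr rfl h3, Finset.sum_const, Finset.card_range, smul_eq_mul]
      refine Nat.add_le_add_left ?_ _
      have h4 : ∀ m ∈ Finset.range M', hilb (I ⊔ Ideal.span {b}) (da + m - da) =
          hilb (I ⊔ Ideal.span {b}) m := by
        intro m _
        rw [Nat.add_sub_cancel_left]
      rw [Finset.sum_congr rfl h4]
      exact Finset.sum_le_sum_of_subset (Finset.range_subset_range.2 (by omega))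
  refine ⟨C1 + (da * hilb (I ⊔ Ideal.span {b}) 0 + C2), fun M => ?_⟩
  calc ∑ m ∈ Finset.range M, hilb I m ≤
        ∑ m ∈ Finset.range M, (hilb (I ⊔ Ideal.span {a}) m + hilb (I ⊔ Ideal.span {b}) (m - da)) :=
          Finset.sum_le_sum fun m _ => hilb_sub I _ hI a da ha hJ m
    _ = ∑ m ∈ Finset.range M, hilb (I ⊔ Ideal.span {a}) m +
        ∑ m ∈ Finset.range M, hilb (I ⊔ Ideal.span {b}) (m - da) := Finset.sum_add_distrib
    _ ≤ C1 * (M + 1) ^ j + (da * hilb (I ⊔ Ideal.span {b}) 0 + C2 * (M + 1) ^ j) :=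
        Nat.add_le_add (hC1 M) ((hshift M).trans (Nat.add_le_add_left (hC2 M) _))
    _ ≤ C1 * (M + 1) ^ j + (da * hilb (I ⊔ Ideal.span {b}) 0 * (M + 1) ^ j +
          C2 * (M + 1) ^ j) := by
        have h5 : 1 ≤ (M + 1) ^ j := Nat.one_le_pow _ _ (by omega)
        have h6 := Nat.le_mul_of_pos_right (da * hilb (I ⊔ Ideal.span {b}) 0) h5
        omega
    _ = _ := by ring

/-- the irrelevant ideal -/
noncomputable def irr (N : ℕ) : Ideal (MvPolynomial (Fin N) ℚ) :=
  RingHom.ker (constantCoeff : MvPolynomial (Fin N) ℚ →+* ℚ)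

lemma le_irr {P : Ideal (MvPolynomial (Fin N) ℚ)} (hP : Hom P) (hne : P ≠ ⊤) : P ≤ irr N := by
  intro f hf
  by_contra hcon
  apply hne
  have h1 := hP f hf 0
  rw [homogeneousComponent_zero] at h1
  refine Ideal.eq_top_of_isUnit_mem _ h1 (IsUnit.map C (isUnit_iff_ne_zero.2 ?_))
  exact hcon

/-- pointwise bound from the section -/
lemma hilb_le_sum {P : Ideal (MvPolynomial (Fin N) ℚ)} (hP : Hom P) (i : Fin N) (m : ℕ) :
    hilb P m ≤ hilb P 0 + ∑ l ∈ Finset.range (m + 1), hilb (P ⊔ Ideal.span {X i}) l := by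
  induction m with
  | zero => exact Nat.le_add_right _ _
  | succ m ih =>
    have h1 := hilb_sub P P hP (X i) 1
      (by rw [mem_homogeneousSubmodule]; exact isHomogeneous_X ℚ i)
      (fun x hx => P.mul_mem_left _ hx) (m + 1)
    rw [Nat.add_sub_cancel] at h1
    rw [Finset.sum_range_succ]
    omega

lemma bd_step {P : Ideal (MvPolynomial (Fin N) ℚ)} (hhom : Hom P) (hP : P.IsPrime) (i : Fin N)
    (hi : X i ∉ P) (j : ℕ) (hj : dimQ P = j + 1)
    (ih : ∀ Q : Ideal (MvPolynomial (Fin N) ℚ), Q.IsPrime → Hom Q → dimQ Q < dimQ P →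
      Bd Q (dimQ Q)) : ∃ C : ℕ, ∀ m : ℕ, hilb P m ≤ C * (m + 1) ^ j := by
  have h1 : Bd (P ⊔ Ideal.span {X i}) j := by
    refine bd_of_primes j _ (hhom.sup_span (d := 1)
      (by rw [mem_homogeneousSubmodule]; exact isHomogeneous_X ℚ i)) fun Q hQ hQh hle => ?_
    have hlt : P < Q := by
      refine lt_of_le_of_ne (le_sup_left.trans hle) fun he => hi ?_
      rw [he]
      exact hle (Ideal.mem_sup_right (Ideal.mem_span_singleton_self _))
    have := dimQ_lt hP hQ hlt
    exact (ih Q hQ hQh (by omega)).mono (by omega)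
  obtain ⟨C, hC⟩ := h1
  refine ⟨hilb P 0 + C * 2 ^ j, fun m => ?_⟩
  refine (hilb_le_sum hhom i m).trans ?_
  have h2 := hC (m + 1)
  have h3 : (m + 1 + 1) ^ j ≤ 2 ^ j * (m + 1) ^ j := by
    rw [← mul_pow]
    exact Nat.pow_le_pow_left (by omega) j
  have h4 : 1 ≤ (m + 1) ^ j := Nat.one_le_pow _ _ (by omega)
  calc hilb P 0 + ∑ l ∈ Finset.range (m + 1), hilb (P ⊔ Ideal.span {X i}) l ≤
        hilb P 0 * (m + 1) ^ j + C * (2 ^ j * (m + 1) ^ j) := by
          refine Nat.add_le_add (Nat.le_mul_of_pos_right _ h4) (h2.trans ?_)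
          exact Nat.mul_le_mul_left _ h3
    _ = _ := by ring

theorem bd_prime (j : ℕ) : ∀ P : Ideal (MvPolynomial (Fin N) ℚ), P.IsPrime → Hom P →
    dimQ P = j → Bd P j := by
  induction j using Nat.strong_induction_on with
  | _ j ih =>
    intro P hP hhom hj
    by_cases hall : ∀ i, X i ∈ P
    · -- the irrelevant ideal
      refine ⟨hilb P 0, fun M => ?_⟩
      have h1 : ∀ m, hilb P (m + 1) = 0 := by
        intro m
        unfold hilb
        have : HS P (m + 1) = ⊥ := by
          rw [eq_bot_iff]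
          intro u hu
          obtain ⟨p, hp, rfl⟩ := Submodule.mem_map.1 hu
          rw [Submodule.mem_bot]
          show Ideal.Quotient.mk P p = 0
          rw [Ideal.Quotient.eq_zero_iff_mem]
          rw [mem_homogeneousSubmodule] at hp
          rw [p.as_sum]
          refine P.sum_mem fun d hd => ?_
          have hdeg : d.degree = m + 1 := by
            have := hp (mem_support_iff.1 hd)
            rwa [Finsupp.degree_eq_weight_one]
          obtain ⟨i, hi⟩ : ∃ i, d i ≠ 0 := by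
            by_contra hcon
            push Not at hcon
            have : d = 0 := Finsupp.ext hcon
            rw [this] at hdeg
            simp at hdeg
          have h2 : d = (d - Finsupp.single i 1) + Finsupp.single i 1 := by
            rw [tsub_add_cancel_of_le]
            rw [Finsupp.single_le_iff]
            omega
          rw [h2, ← mul_one (coeff _ p), ← monomial_mul]
          exact P.mul_mem_left _ (hall i)
        rw [this, finrank_bot]
      have h2 : ∑ m ∈ Finset.range M, hilb P m ≤ hilb P 0 := by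
        rcases M with _ | M
        · simp
        · rw [Finset.sum_range_succ', Finset.sum_eq_zero (fun m _ => h1 m), zero_add]
      exact h2.trans (Nat.le_mul_of_pos_right _ (Nat.one_le_pow _ _ (by omega)))
    · push Not at hall
      obtain ⟨i, hi⟩ := hall
      have hlt : P < irr N := by
        refine lt_of_le_of_ne (le_irr hhom hP.ne_top) fun he => hi ?_
        rw [he]
        exact constantCoeff_X _ i
      have hirr : (irr N).IsPrime := RingHom.ker_isPrime _
      have h3 := dimQ_lt hP hirr hlt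
      obtain ⟨j', rfl⟩ : ∃ j', j = j' + 1 := ⟨j - 1, by omega⟩
      obtain ⟨C, hC⟩ := bd_step hhom hP i hi j' hj (fun Q hQ hQh hQd =>
        ih _ (by omega) Q hQ hQh rfl)
      refine ⟨C, fun M => ?_⟩
      calc ∑ m ∈ Finset.range M, hilb P m ≤ ∑ m ∈ Finset.range M, C * (M + 1) ^ j' := by
            refine Finset.sum_le_sum fun m hm => (hC m).trans ?_
            rw [Finset.mem_range] at hm
            gcongr
        _ = M * (C * (M + 1) ^ j') := by
            rw [Finset.sum_const, Finset.card_range, smul_eq_mul]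
        _ ≤ (M + 1) * (C * (M + 1) ^ j') := Nat.mul_le_mul_right _ (by omega)
        _ = _ := by ring

lemma exists_X_notMem {P : Ideal (MvPolynomial (Fin N) ℚ)} (hP : P.IsPrime) (h : 1 ≤ dimQ P) :
    ∃ i, X i ∉ P := by
  by_contra hcon
  push Not at hcon
  have := dimQ_forms P hP _ (Pi.basisFun ℚ (Fin N)).linearIndependent (fun i => by
    simp [Pi.single_apply, hcon i])
  omega

/-- **Upper bound** for the Hilbert function. -/
theorem hilb_upper (P : Ideal (MvPolynomial (Fin N) ℚ)) (hP : P.IsPrime) (hhom : Hom P) (k : ℕ)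
    (hk : dimQ P = k + 1) : ∃ C : ℕ, ∀ m : ℕ, hilb P m ≤ C * (m + 1) ^ k := by
  obtain ⟨i, hi⟩ := exists_X_notMem hP (by omega)
  exact bd_step hhom hP i hi k hk fun Q hQ hQh _ => bd_prime _ Q hQ hQh rfl

/-- **Lower bound** for the Hilbert function. -/
theorem A_one (k : ℕ) : ∀ P : Ideal (MvPolynomial (Fin N) ℚ), P.IsPrime → Hom P →
    k + 1 ≤ dimQ P → A P k 1 := by
  induction k with
  | zero =>
    intro P hP hhom hk
    obtain ⟨i, hi⟩ := exists_X_notMem hP hk
    refine ⟨0, fun m => ?_⟩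
    rw [zero_add, Nat.choose_zero_right, Nat.cast_one, mul_one, Nat.one_le_cast]
    unfold hilb
    rw [Submodule.one_le_finrank_iff]
    intro h0
    have h1 : (X i : MvPolynomial (Fin N) ℚ) ^ m ∈ homogeneousSubmodule (Fin N) ℚ m := by
      rw [mem_homogeneousSubmodule]
      have := (isHomogeneous_X ℚ i).pow m
      rwa [one_mul] at this
    have h2 : Ideal.Quotient.mk P (X i ^ m) ∈ HS P m := Submodule.mem_map.2 ⟨_, h1, rfl⟩
    rw [h0, Submodule.mem_bot, Ideal.Quotient.eq_zero_iff_mem] at h2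
    exact hi (hP.mem_of_pow_mem m h2)
  | succ k ih =>
    intro P hP hhom hk
    obtain ⟨i, hi⟩ := exists_X_notMem hP (by omega)
    have hX : (X i : MvPolynomial (Fin N) ℚ) ∈ homogeneousSubmodule (Fin N) ℚ 1 := by
      rw [mem_homogeneousSubmodule]; exact isHomogeneous_X ℚ i
    have hne : P ⊔ Ideal.span {X i} ≠ ⊤ := by
      intro h
      have h1 : P ⊔ Ideal.span {(X i : MvPolynomial (Fin N) ℚ)} ≤ irr N := by
        rw [sup_le_iff, Ideal.span_singleton_le_iff_mem]
        exact ⟨le_irr hhom hP.ne_top, constantCoeff_X _ i⟩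
      rw [h, top_le_iff] at h1
      exact (RingHom.ker_isPrime (constantCoeff : MvPolynomial (Fin N) ℚ →+* ℚ)).ne_top h1
    obtain ⟨Z, hZ⟩ := Ideal.nonempty_minimalPrimes hne
    have h1 := dimQ_section P Z (X i) hP hZ
    have h2 := ih Z hZ.1.1 ((hhom.sup_span hX).minimal hZ) (by omega)
    have h3 := A_section (ι := Unit) P hP hhom (X i) hX hi (fun _ => Z)
      (fun _ _ _ => rfl) (fun _ => hZ) k (fun _ => 1) (fun _ => zero_le_one) (fun _ => h2)
    simpa using h3

end Pool.Agent.X330.SZ
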