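import Pool.Agent.X330.SZ.Dim

/-!
Hilbert functions of homogeneous primes, and the induction step for hyperplane sections.
-/

set_option autoImplicit false

open MvPolynomial

namespace Pool.Agent.X330.SZ

variable {N : ℕ}

/-- homogeneous ideals -/
def Hom (I : Ideal (MvPolynomial (Fin N) ℚ)) : Prop :=
  ∀ f ∈ I, ∀ m, homogeneousComponent m f ∈ I

section Graded

attribute [local instance] MvPolynomial.gradedAlgebra

lemma hom_iff (I : Ideal (MvPolynomial (Fin N) ℚ)) :
    Hom I ↔ I.IsHomogeneous (homogeneousSubmodule (Fin N) ℚ) := by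
  constructor
  · intro h m f hf
    have := h f hf m
    rw [← MvPolynomial.decomposition.decompose'_apply] at this
    exact this
  · intro h f hf m
    rw [← MvPolynomial.decomposition.decompose'_apply]
    exact h m hf

lemma Hom.minimal {I Z : Ideal (MvPolynomial (Fin N) ℚ)} (hI : Hom I)
    (hZ : Z ∈ I.minimalPrimes) : Hom Z := by
  rw [hom_iff] at hI ⊢
  have hZp : Z.IsPrime := hZ.1.1
  have h1 : (Z.homogeneousCore (homogeneousSubmodule (Fin N) ℚ)).toIdeal.IsPrime :=
    hZp.homogeneousCore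
  have h2 : I ≤ (Z.homogeneousCore (homogeneousSubmodule (Fin N) ℚ)).toIdeal := by
    rw [← hI.toIdeal_homogeneousCore_eq_self]
    exact Ideal.homogeneousCore_mono _ hZ.1.2
  have h3 := hZ.2 ⟨h1, h2⟩ (Ideal.toIdeal_homogeneousCore_le _ _)
  rw [Ideal.IsHomogeneous.iff_eq]
  exact le_antisymm (Ideal.toIdeal_homogeneousCore_le _ _) h3

lemma Hom.sup_span {I : Ideal (MvPolynomial (Fin N) ℚ)} (hI : Hom I)
    {f : MvPolynomial (Fin N) ℚ} {d : ℕ} (hf : f ∈ homogeneousSubmodule (Fin N) ℚ d) :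
    Hom (I ⊔ Ideal.span {f}) := by
  rw [hom_iff] at hI ⊢
  refine hI.sup (Ideal.homogeneous_span _ _ ?_)
  intro x hx
  rw [Set.mem_singleton_iff.1 hx]
  exact ⟨d, hf⟩

lemma hom_bot : Hom (⊥ : Ideal (MvPolynomial (Fin N) ℚ)) := by
  intro f hf m
  rw [Ideal.mem_bot] at hf ⊢
  rw [hf, map_zero]

end Graded

/-- a homogeneous element separating two homogeneous ideals -/
lemma Hom.exists_sep {Z W : Ideal (MvPolynomial (Fin N) ℚ)} (hZ : Hom Z) (h : ¬ Z ≤ W) :
    ∃ g : MvPolynomial (Fin N) ℚ, ∃ e : ℕ, g ∈ homogeneousSubmodule (Fin N) ℚ e ∧ g ∈ Z ∧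
      g ∉ W := by
  by_contra hcon
  push Not at hcon
  apply h
  intro f hf
  rw [← MvPolynomial.sum_homogeneousComponent f]
  refine Ideal.sum_mem _ fun i _ => hcon _ i ?_ (hZ f hf i)
  rw [mem_homogeneousSubmodule]
  exact homogeneousComponent_isHomogeneous i f

/-- the coefficients of a homogeneous polynomial in `n + 1` variables, indexed by the last `n`
exponents -/
noncomputable def coeffMap (N m : ℕ) : homogeneousSubmodule (Fin N) ℚ m →ₗ[ℚ]
    ((Fin N → Fin (m + 1)) → ℚ) :=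
  (LinearMap.pi fun a => lcoeff ℚ (Finsupp.equivFunOnFinite.symm fun i => (a i : ℕ))) ∘ₗ
    Submodule.subtype _

lemma coeffMap_injective (N m : ℕ) : Function.Injective (coeffMap N m) := by
  rw [injective_iff_map_eq_zero]
  intro p hp
  refine Subtype.ext (MvPolynomial.ext _ _ fun d => ?_)
  show coeff d (p : MvPolynomial (Fin N) ℚ) = coeff d 0
  rw [coeff_zero]
  by_contra hd
  have h1 := p.2
  rw [mem_homogeneousSubmodule] at h1
  have h2 : d.degree = m := by
    have := h1 hd
    rwa [Finsupp.degree_eq_weight_one]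
  have h3 : ∀ i, d i < m + 1 := by
    intro i
    have := Finsupp.le_degree i d
    omega
  have h4 := congrFun hp fun i => ⟨d i, h3 i⟩
  have h5 : coeff (Finsupp.equivFunOnFinite.symm fun i => d i)
      (p : MvPolynomial (Fin N) ℚ) = 0 := h4
  apply hd
  rw [← h5]
  congr 1
  ext i
  simp

instance (m : ℕ) : FiniteDimensional ℚ (homogeneousSubmodule (Fin N) ℚ m) :=
  FiniteDimensional.of_injective (coeffMap N m) (coeffMap_injective N m)

/-- degree `m` part of the coordinate ring -/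
noncomputable def HS (I : Ideal (MvPolynomial (Fin N) ℚ)) (m : ℕ) :
    Submodule ℚ (MvPolynomial (Fin N) ℚ ⧸ I) :=
  (homogeneousSubmodule (Fin N) ℚ m).map (Ideal.Quotient.mkₐ ℚ I).toLinearMap

/-- Hilbert function -/
noncomputable def hilb (I : Ideal (MvPolynomial (Fin N) ℚ)) (m : ℕ) : ℕ :=
  Module.finrank ℚ (HS I m)

instance (I : Ideal (MvPolynomial (Fin N) ℚ)) (m : ℕ) : FiniteDimensional ℚ (HS I m) := by
  unfold HS; infer_instance

/-- linear section of the projection to the coordinate ring -/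
lemma exists_section (I : Ideal (MvPolynomial (Fin N) ℚ)) (m : ℕ) :
    ∃ s : HS I m →ₗ[ℚ] MvPolynomial (Fin N) ℚ, (∀ v, s v ∈ homogeneousSubmodule (Fin N) ℚ m) ∧
      ∀ v, Ideal.Quotient.mk I (s v) = v := by
  obtain ⟨s, hs⟩ := LinearMap.exists_rightInverse_of_surjective
    ((Ideal.Quotient.mkₐ ℚ I).toLinearMap.submoduleMap (homogeneousSubmodule (Fin N) ℚ m))
    (LinearMap.range_eq_top.2 (LinearMap.submoduleMap_surjective _ _))
  refine ⟨Submodule.subtype _ ∘ₗ s, fun v => (s v).2, fun v => ?_⟩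
  have h1 := LinearMap.congr_fun hs v
  exact congrArg Subtype.val h1

/-- The Hilbert function of a prime and of the components of a section. -/
theorem hilb_section {ι : Type} [Fintype ι] [DecidableEq ι] (P : Ideal (MvPolynomial (Fin N) ℚ))
    (hP : P.IsPrime) (f : MvPolynomial (Fin N) ℚ) (hf : f ∈ homogeneousSubmodule (Fin N) ℚ 1)
    (hfP : f ∉ P) (Z : ι → Ideal (MvPolynomial (Fin N) ℚ)) (hZ : ∀ i, (Z i).IsPrime)
    (hPZ : ∀ i, P ≤ Z i) (hfZ : ∀ i, f ∈ Z i) (g : ι → MvPolynomial (Fin N) ℚ) (e : ι → ℕ)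
    (hg : ∀ i, g i ∈ homogeneousSubmodule (Fin N) ℚ (e i)) (hgi : ∀ i, g i ∉ Z i)
    (hgj : ∀ i j, i ≠ j → g i ∈ Z j) (M : ℕ) (mi : ι → ℕ) (hmi : ∀ i, mi i + e i = M + 1) :
    hilb P M + ∑ i, hilb (Z i) (mi i) ≤ hilb P (M + 1) := by
  choose s hs1 hs2 using fun i => exists_section (Z i) (mi i)
  let Φ0 : (HS P M × (Π i, HS (Z i) (mi i))) →ₗ[ℚ] (MvPolynomial (Fin N) ℚ ⧸ P) :=
    LinearMap.coprod
      (LinearMap.mulLeft ℚ (Ideal.Quotient.mk P f) ∘ₗ Submodule.subtype _)
      (∑ i, (Ideal.Quotient.mkₐ ℚ P).toLinearMap ∘ₗ LinearMap.mulLeft ℚ (g i) ∘ₗ s i ∘ₗ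
        LinearMap.proj i)
  have hΦ0 : ∀ u v, Φ0 (u, v) = Ideal.Quotient.mk P f * u +
      ∑ i, Ideal.Quotient.mk P (g i * s i (v i)) := by
    intro u v
    simp only [Φ0, LinearMap.coprod_apply, LinearMap.sum_apply]
    rfl
  have hmem : ∀ w, Φ0 w ∈ HS P (M + 1) := by
    rintro ⟨u, v⟩
    rw [hΦ0]
    refine Submodule.add_mem _ ?_ (Submodule.sum_mem _ fun i _ => ?_)
    · obtain ⟨p, hp, hpu⟩ := Submodule.mem_map.1 u.2
      refine Submodule.mem_map.2 ⟨f * p, ?_, ?_⟩
      · rw [mem_homogeneousSubmodule] at hf hp ⊢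
        rw [add_comm M 1]
        exact hf.mul hp
      · rw [← hpu]
        exact map_mul (Ideal.Quotient.mk P) f p
    · refine Submodule.mem_map.2 ⟨g i * s i (v i), ?_, rfl⟩
      have h1 := hs1 i (v i)
      have h2 := hg i
      rw [mem_homogeneousSubmodule] at h1 h2 ⊢
      rw [← hmi i, add_comm]
      exact h2.mul h1
  let Φ := Φ0.codRestrict (HS P (M + 1)) hmem
  have hinj : Function.Injective Φ := by
    rw [injective_iff_map_eq_zero]
    rintro ⟨u, v⟩ huv
    have h0 : Ideal.Quotient.mk P f * u + ∑ i, Ideal.Quotient.mk P (g i * s i (v i)) = 0 := by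
      rw [← hΦ0]; exact congrArg Subtype.val huv
    have hv : ∀ j, v j = 0 := by
      intro j
      have h1 := congrArg (Ideal.Quotient.factor (hPZ j)) h0
      rw [map_add, map_mul, map_sum, map_zero, Ideal.Quotient.factor_mk,
        Ideal.Quotient.eq_zero_iff_mem.2 (hfZ j), zero_mul, zero_add,
        Finset.sum_eq_single j] at h1
      · rw [Ideal.Quotient.factor_mk, map_mul, hs2] at h1
        have hZj := hZ j
        rcases mul_eq_zero.1 h1 with h2 | h2
        · exact absurd (Ideal.Quotient.eq_zero_iff_mem.1 h2) (hgi j)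
        · exact Subtype.ext h2
      · intro i _ hij
        rw [Ideal.Quotient.factor_mk, map_mul,
          Ideal.Quotient.eq_zero_iff_mem.2 (hgj i j hij), zero_mul]
      · intro h; exact absurd (Finset.mem_univ j) h
    have hv0 : v = 0 := funext hv
    subst hv0
    have hu : u = 0 := by
      have h1 : ∑ i, Ideal.Quotient.mk P (g i * s i ((0 : Π i, HS (Z i) (mi i)) i)) = 0 := by
        refine Finset.sum_eq_zero fun i _ => ?_
        rw [Pi.zero_apply, map_zero, mul_zero, map_zero]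
      rw [h1, add_zero] at h0
      rcases mul_eq_zero.1 h0 with h2 | h2
      · exact absurd (Ideal.Quotient.eq_zero_iff_mem.1 h2) hfP
      · exact Subtype.ext h2
    rw [hu]; rfl
  have h1 := LinearMap.finrank_le_finrank_of_injective hinj
  have hfree : ∀ i, Module.Free ℚ (HS (Z i) (mi i)) := fun i =>
    Module.Free.of_divisionRing ℚ (HS (Z i) (mi i))
  have hfree0 : Module.Free ℚ (HS P M) := Module.Free.of_divisionRing ℚ (HS P M)
  have hfree1 : Module.Free ℚ (Π i, HS (Z i) (mi i)) :=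
    Module.Free.of_divisionRing ℚ (Π i, HS (Z i) (mi i))
  rw [Module.finrank_prod, Module.finrank_pi_fintype] at h1
  exact h1

end Pool.Agent.X330.SZ
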