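import Pool.Agent.X330.SZ.Hil

/-!
Lower bounds for Hilbert functions.
-/

set_option autoImplicit false

open MvPolynomial

namespace Pool.Agent.X330.SZ

variable {N : ℕ}

/-- the Hilbert function grows at least like `ρ m ^ e / e!` -/
def A (P : Ideal (MvPolynomial (Fin N) ℚ)) (e : ℕ) (ρ : ℝ) : Prop :=
  ∃ C : ℕ, ∀ m : ℕ, ρ * (m.choose e : ℝ) ≤ hilb P (C + m)

lemma A.mono {P : Ideal (MvPolynomial (Fin N) ℚ)} {e : ℕ} {ρ ρ' : ℝ} (h : A P e ρ)
    (hle : ρ' ≤ ρ) : A P e ρ' := by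
  obtain ⟨C, hC⟩ := h
  refine ⟨C, fun m => le_trans ?_ (hC m)⟩
  gcongr

lemma A_nonpos (P : Ideal (MvPolynomial (Fin N) ℚ)) (e : ℕ) {ρ : ℝ} (h : ρ ≤ 0) : A P e ρ := by
  refine ⟨0, fun m => ?_⟩
  have h1 : ρ * (m.choose e : ℝ) ≤ 0 := mul_nonpos_of_nonpos_of_nonneg h (Nat.cast_nonneg _)
  exact h1.trans (Nat.cast_nonneg _)

/-- The growth for a prime from the growth for the components of a hyperplane section. -/
theorem A_section {ι : Type} [Fintype ι] (P : Ideal (MvPolynomial (Fin N) ℚ))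
    (hP : P.IsPrime) (hhom : Hom P) (f : MvPolynomial (Fin N) ℚ)
    (hf : f ∈ homogeneousSubmodule (Fin N) ℚ 1) (hfP : f ∉ P)
    (Z : ι → Ideal (MvPolynomial (Fin N) ℚ)) (hinj : Function.Injective Z)
    (hZ : ∀ i, Z i ∈ (P ⊔ Ideal.span {f}).minimalPrimes) (e : ℕ) (ρ : ι → ℝ)
    (hρ : ∀ i, 0 ≤ ρ i) (hA : ∀ i, A (Z i) e (ρ i)) : A P (e + 1) (∑ i, ρ i) := by
  classical
  have hZhom : ∀ i, Hom (Z i) := fun i => (hhom.sup_span hf).minimal (hZ i)
  have hPZ : ∀ i, P ≤ Z i := fun i => le_sup_left.trans (hZ i).1.2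
  have hfZ : ∀ i, f ∈ Z i := fun i =>
    (hZ i).1.2 (Ideal.mem_sup_right (Ideal.mem_span_singleton_self f))
  have hZp : ∀ i, (Z i).IsPrime := fun i => (hZ i).1.1
  have hinc : ∀ i j, i ≠ j → ¬ Z j ≤ Z i := by
    intro i j hij hle
    exact hij (hinj (le_antisymm ((hZ i).2 (hZ j).1 hle) hle))
  choose C hC using hA
  have hsep : ∀ i j, ∃ g : MvPolynomial (Fin N) ℚ, ∃ d : ℕ, i ≠ j →
      (g ∈ homogeneousSubmodule (Fin N) ℚ d ∧ g ∈ Z j ∧ g ∉ Z i) := by
    intro i j
    by_cases hij : i = j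
    · exact ⟨0, 0, fun h => absurd hij h⟩
    · obtain ⟨g, d, h⟩ := (hZhom j).exists_sep (hinc i j hij)
      exact ⟨g, d, fun _ => h⟩
  choose g d hgd using hsep
  let G : ι → MvPolynomial (Fin N) ℚ := fun i => ∏ j ∈ Finset.univ.erase i, g i j
  let D : ι → ℕ := fun i => ∑ j ∈ Finset.univ.erase i, d i j
  have hG : ∀ i, G i ∈ homogeneousSubmodule (Fin N) ℚ (D i) := by
    intro i
    rw [mem_homogeneousSubmodule]
    refine MvPolynomial.IsHomogeneous.prod _ _ _ fun j hj => ?_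
    exact (hgd i j (Finset.ne_of_mem_erase hj).symm).1
  have hGi : ∀ i, G i ∉ Z i := by
    intro i hi
    have hprime := hZp i
    obtain ⟨j, hj, hj2⟩ := (Ideal.IsPrime.prod_mem_iff (p := Z i)).1 hi
    exact (hgd i j (Finset.ne_of_mem_erase hj).symm).2.2 hj2
  have hGj : ∀ i j, i ≠ j → G i ∈ Z j := by
    intro i j hij
    refine (Ideal.IsPrime.prod_mem_iff (hp := hZp j)).2 ⟨j, ?_, (hgd i j hij).2.1⟩
    exact Finset.mem_erase.2 ⟨hij.symm, Finset.mem_univ j⟩
  let M0 : ℕ := ∑ i, (C i + D i)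
  have hM0 : ∀ i, C i + D i ≤ M0 := fun i =>
    Finset.single_le_sum (f := fun i => C i + D i) (fun _ _ => Nat.zero_le _) (Finset.mem_univ i)
  have hkey : ∀ m, (hilb P (M0 + m) : ℝ) + (∑ i, ρ i) * (m.choose e : ℝ) ≤
      hilb P (M0 + (m + 1)) := by
    intro m
    have h1 := hilb_section P hP f hf hfP Z hZp hPZ hfZ G D hG hGi hGj (M0 + m)
      (fun i => M0 + m + 1 - D i) (fun i => by have := hM0 i; omega)
    have h2 : (hilb P (M0 + m) : ℝ) + ∑ i, (hilb (Z i) (M0 + m + 1 - D i) : ℝ) ≤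
        hilb P (M0 + (m + 1)) := by
      exact_mod_cast h1
    refine le_trans ?_ h2
    rw [Finset.sum_mul]
    gcongr with i
    have h3 := hC i (M0 + m + 1 - D i - C i)
    have h4 : C i + (M0 + m + 1 - D i - C i) = M0 + m + 1 - D i := by
      have := hM0 i; omega
    rw [h4] at h3
    refine le_trans ?_ h3
    apply mul_le_mul_of_nonneg_left _ (hρ i)
    have h5 : m ≤ M0 + m + 1 - D i - C i := by have := hM0 i; omega
    exact_mod_cast Nat.choose_le_choose e h5
  refine ⟨M0, fun m => ?_⟩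
  induction m with
  | zero => simp
  | succ m ih =>
    refine le_trans ?_ (hkey m)
    rw [Nat.choose_succ_succ, Nat.cast_add, mul_add]
    linarith

/-- Points give a lower bound for the Hilbert function. -/
theorem A_zero {ι : Type} [Nonempty (Fin N)] (P : Ideal (MvPolynomial (Fin N) ℚ)) (F : Finset ι)
    (x : ι → Fin N → ℚ) (hx : ∀ p ∈ F, x p ≠ 0)
    (hsep : ∀ p ∈ F, ∀ q ∈ F, p ≠ q → ∃ l ∈ homogeneousSubmodule (Fin N) ℚ 1,
      eval (x p) l ≠ 0 ∧ eval (x q) l = 0)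
    (hP : ∀ p ∈ F, ∀ f ∈ P, eval (x p) f = 0) : A P 0 F.card := by
  classical
  have h1 : ∀ p q, ∃ l : MvPolynomial (Fin N) ℚ, p ∈ F → q ∈ F → p ≠ q →
      (l ∈ homogeneousSubmodule (Fin N) ℚ 1 ∧ eval (x p) l ≠ 0 ∧ eval (x q) l = 0) := by
    intro p q
    by_cases h : p ∈ F ∧ q ∈ F ∧ p ≠ q
    · obtain ⟨l, hl⟩ := hsep p h.1 q h.2.1 h.2.2
      exact ⟨l, fun _ _ _ => hl⟩
    · exact ⟨0, fun a b c => absurd ⟨a, b, c⟩ h⟩
  choose l hl using h1
  have h2 : ∀ p, ∃ j, p ∈ F → x p j ≠ 0 := by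
    intro p
    by_cases h : p ∈ F
    · obtain ⟨j, hj⟩ := Function.ne_iff.1 (hx p h)
      exact ⟨j, fun _ => hj⟩
    · exact ⟨Classical.arbitrary _, fun a => absurd a h⟩
  choose c hc using h2
  refine ⟨F.card, fun m => ?_⟩
  rw [Nat.choose_zero_right, Nat.cast_one, mul_one]
  let G : ι → MvPolynomial (Fin N) ℚ := fun p => (∏ q ∈ F.erase p, l p q) * X (c p) ^ (m + 1)
  have hGh : ∀ p ∈ F, G p ∈ homogeneousSubmodule (Fin N) ℚ (F.card + m) := by
    intro p hp
    rw [mem_homogeneousSubmodule]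
    have h3 : (∏ q ∈ F.erase p, l p q).IsHomogeneous (∑ q ∈ F.erase p, 1) := by
      refine MvPolynomial.IsHomogeneous.prod _ _ _ fun q hq => ?_
      exact (hl p q hp (Finset.mem_of_mem_erase hq) (Finset.ne_of_mem_erase hq).symm).1
    have h4 := h3.mul ((isHomogeneous_X ℚ (c p)).pow (m + 1))
    have h5 : (∑ q ∈ F.erase p, 1) + 1 * (m + 1) = F.card + m := by
      rw [Finset.sum_const, smul_eq_mul, mul_one, Finset.card_erase_of_mem hp]
      have := Finset.card_pos.2 ⟨p, hp⟩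
      omega
    rwa [h5] at h4
  have hGp : ∀ p ∈ F, eval (x p) (G p) ≠ 0 := by
    intro p hp
    rw [map_mul, map_prod, map_pow, eval_X]
    refine mul_ne_zero (Finset.prod_ne_zero_iff.2 fun q hq => ?_) (pow_ne_zero _ (hc p hp))
    exact (hl p q hp (Finset.mem_of_mem_erase hq) (Finset.ne_of_mem_erase hq).symm).2.1
  have hGq : ∀ p ∈ F, ∀ q ∈ F, p ≠ q → eval (x q) (G p) = 0 := by
    intro p hp q hq hpq
    rw [map_mul, map_prod]
    rw [Finset.prod_eq_zero (Finset.mem_erase.2 ⟨hpq.symm, hq⟩) (hl p q hp hq hpq).2.2, zero_mul]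
  let ev : ∀ p : F, (MvPolynomial (Fin N) ℚ ⧸ P) →+* ℚ := fun p =>
    Ideal.Quotient.lift P (eval (x p)) (hP p p.2)
  let v : F → HS P (F.card + m) := fun p =>
    ⟨Ideal.Quotient.mk P (G p), Submodule.mem_map.2 ⟨G p, hGh p p.2, rfl⟩⟩
  have hli : LinearIndependent ℚ v := by
    rw [Fintype.linearIndependent_iff]
    intro a ha q
    have h3 := congrArg Subtype.val ha
    rw [Submodule.coe_sum] at h3
    have h4 := congrArg (ev q) h3
    rw [map_sum, Finset.sum_eq_single q] at h4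
    · have h5 : ev q ((a q • v q : HS P (F.card + m)) : MvPolynomial (Fin N) ℚ ⧸ P) =
          a q * eval (x q) (G q) := by
        have h6 : ((a q • v q : HS P (F.card + m)) : MvPolynomial (Fin N) ℚ ⧸ P) =
            Ideal.Quotient.mk P (C (a q) * G q) := by
          rw [← smul_eq_C_mul]; rfl
        rw [h6, Ideal.Quotient.lift_mk, map_mul, eval_C]
      rw [h5] at h4
      have h6 : a q * eval (x q) (G q) = 0 := by rw [h4]; simp
      exact (mul_eq_zero.1 h6).resolve_right (hGp q q.2)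
    · intro p _ hpq
      have h5 : ev q ((a p • v p : HS P (F.card + m)) : MvPolynomial (Fin N) ℚ ⧸ P) =
          a p * eval (x q) (G p) := by
        have h6 : ((a p • v p : HS P (F.card + m)) : MvPolynomial (Fin N) ℚ ⧸ P) =
            Ideal.Quotient.mk P (C (a p) * G p) := by
          rw [← smul_eq_C_mul]; rfl
        rw [h6, Ideal.Quotient.lift_mk, map_mul, eval_C]
      rw [h5, hGq p p.2 q q.2 (fun h => hpq (Subtype.ext h)), mul_zero]
    · intro h; exact absurd (Finset.mem_univ q) h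
  have := hli.fintype_card_le_finrank
  rw [Fintype.card_coe] at this
  exact_mod_cast this

/-- the coefficients of a homogeneous polynomial in `n + 1` variables, indexed by the last `n`
exponents -/
noncomputable def coeffMap' (n m : ℕ) : homogeneousSubmodule (Fin (n + 1)) ℚ m →ₗ[ℚ]
    ((Fin n → Fin (m + 1)) → ℚ) :=
  (LinearMap.pi fun a => lcoeff ℚ (Finsupp.equivFunOnFinite.symm
    (Fin.cons (m - ∑ i, (a i : ℕ)) fun i => (a i : ℕ)))) ∘ₗ Submodule.subtype _

lemma coeffMap'_injective (n m : ℕ) : Function.Injective (coeffMap' n m) := by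
  rw [injective_iff_map_eq_zero]
  intro p hp
  refine Subtype.ext (MvPolynomial.ext _ _ fun d => ?_)
  show coeff d (p : MvPolynomial (Fin (n + 1)) ℚ) = coeff d 0
  rw [coeff_zero]
  by_contra hd
  have h1 := p.2
  rw [mem_homogeneousSubmodule] at h1
  have h2 : d.degree = m := by
    have := h1 hd
    rwa [Finsupp.degree_eq_weight_one]
  have h3 : ∀ i, d i < m + 1 := by
    intro i
    have := Finsupp.le_degree i d
    omega
  have h4 := congrFun hp fun i => ⟨d i.succ, h3 i.succ⟩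
  have h5 : coeff (Finsupp.equivFunOnFinite.symm
    (Fin.cons (m - ∑ i : Fin n, d i.succ) fun i : Fin n => d i.succ))
      (p : MvPolynomial (Fin (n + 1)) ℚ) = 0 := h4
  apply hd
  rw [← h5]
  congr 1
  ext i
  rw [Finsupp.equivFunOnFinite_symm_apply_apply]
  refine Fin.cases ?_ (fun i => ?_) i
  · rw [Fin.cons_zero]
    rw [Finsupp.degree_eq_sum, Fin.sum_univ_succ] at h2
    omega
  · rw [Fin.cons_succ]

lemma hilb_le (n : ℕ) (I : Ideal (MvPolynomial (Fin (n + 1)) ℚ)) (m : ℕ) :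
    hilb I m ≤ (m + 1) ^ n := by
  have h1 : hilb I m ≤ Module.finrank ℚ (homogeneousSubmodule (Fin (n + 1)) ℚ m) :=
    Submodule.finrank_map_le _ _
  have h2 := LinearMap.finrank_le_finrank_of_injective (coeffMap'_injective n m)
  rw [Module.finrank_fintype_fun_eq_card, Fintype.card_fun, Fintype.card_fin, Fintype.card_fin] at h2
  exact h1.trans h2

end Pool.Agent.X330.SZ
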