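import Mathlib

/-!
Reduced bases: a free abelian group of finite rank with a norm with finite balls has a basis which
is almost orthogonal.
-/

set_option autoImplicit false

open Submodule

namespace Pool.Agent.X330.SZ

/-- A norm on an abelian group, all of whose balls are finite. -/
structure NormLike {M : Type*} [AddCommGroup M] (N : M → ℝ) : Prop where
  smul : ∀ (a : ℤ) (v : M), N (a • v) = |(a : ℝ)| * N v
  add : ∀ u v, N (u + v) ≤ N u + N v
  fin : ∀ R : ℝ, {v | N v ≤ R}.Finite

namespace NormLike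

variable {M : Type*} [AddCommGroup M] {N : M → ℝ}

lemma zero (h : NormLike N) : N 0 = 0 := by
  have := h.smul 0 0
  simpa using this

lemma neg (h : NormLike N) (v : M) : N (-v) = N v := by
  have := h.smul (-1) v
  simpa using this

lemma nonneg (h : NormLike N) (v : M) : 0 ≤ N v := by
  have h1 := h.add v (-v)
  rw [add_neg_cancel, h.zero, h.neg] at h1
  linarith

lemma nsmul (h : NormLike N) (a : ℕ) (v : M) : N (a • v) = a * N v := by
  have := h.smul a v
  simpa using this

lemma pos (h : NormLike N) [IsAddTorsionFree M] {v : M} (hv : v ≠ 0) : 0 < N v := by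
  rcases (h.nonneg v).lt_or_eq with h1 | h1
  · exact h1
  · exfalso
    have h2 : Set.range (fun a : ℕ => a • v) ⊆ {v | N v ≤ 0} := by
      rintro _ ⟨a, rfl⟩
      show N (a • v) ≤ 0
      rw [h.nsmul, ← h1, mul_zero]
    have h3 := (h.fin 0).subset h2
    refine Set.infinite_range_of_injective ?_ h3
    intro a b hab
    have h4 : (a : ℤ) • v = (b : ℤ) • v := by simpa using hab
    exact_mod_cast smul_left_injective ℤ hv h4

lemma sub (h : NormLike N) (u v : M) : N (u - v) ≤ N u + N v := by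
  rw [sub_eq_add_neg, ← h.neg v]
  exact h.add _ _

lemma sum (h : NormLike N) {ι : Type*} (s : Finset ι) (f : ι → M) :
    N (∑ i ∈ s, f i) ≤ ∑ i ∈ s, N (f i) := by
  classical
  induction s using Finset.induction_on with
  | empty => simp [h.zero]
  | insert a s ha ih =>
    rw [Finset.sum_insert ha, Finset.sum_insert ha]
    exact (h.add _ _).trans (by linarith)

/-- a shortest nonzero vector -/
lemma exists_min (h : NormLike N) [Nontrivial M] :
    ∃ b : M, b ≠ 0 ∧ ∀ v, v ≠ 0 → N b ≤ N v := by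
  obtain ⟨v0, hv0⟩ := exists_ne (0 : M)
  have hfin := (h.fin (N v0)).subset (Set.inter_subset_left (t := {v | v ≠ 0}))
  obtain ⟨b, hb, hmin⟩ := Set.exists_min_image _ N hfin ⟨v0, by simp, hv0⟩
  refine ⟨b, hb.2, fun v hv => ?_⟩
  by_cases h1 : N v ≤ N v0
  · exact hmin v ⟨h1, hv⟩
  · exact hb.1.trans (not_le.1 h1).le

end NormLike

section quot

variable {M : Type*} [AddCommGroup M] (N : M → ℝ) (b : M)

/-- The values whose infimum is the quotient norm. -/
def vals (q : M ⧸ span ℤ {b}) : Set ℝ :=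
  {t | ∃ (m : ℕ) (v : M), 0 < m ∧ (Submodule.Quotient.mk v : M ⧸ span ℤ {b}) = m • q ∧
    t = N v / m}

/-- The norm on the quotient by a cyclic subgroup. -/
noncomputable def qn (q : M ⧸ span ℤ {b}) : ℝ := sInf (vals N b q)

variable {N b}

lemma vals_nonneg (h : NormLike N) {q : M ⧸ span ℤ {b}} {t : ℝ} (ht : t ∈ vals N b q) :
    0 ≤ t := by
  obtain ⟨m, v, hm, hv, rfl⟩ := ht
  exact div_nonneg (h.nonneg _) (Nat.cast_nonneg _)

lemma vals_nonempty (q : M ⧸ span ℤ {b}) : (vals N b q).Nonempty := by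
  obtain ⟨v, rfl⟩ := Submodule.Quotient.mk_surjective _ q
  exact ⟨N v / (1 : ℕ), 1, v, one_pos, by simp, rfl⟩

lemma vals_bdd (h : NormLike N) (q : M ⧸ span ℤ {b}) : BddBelow (vals N b q) :=
  ⟨0, fun _ ht => vals_nonneg h ht⟩

lemma qn_nonneg (h : NormLike N) (q : M ⧸ span ℤ {b}) : 0 ≤ qn N b q :=
  le_csInf (vals_nonempty q) fun _ ht => vals_nonneg h ht

lemma qn_le (h : NormLike N) {q : M ⧸ span ℤ {b}} {m : ℕ} {v : M} (hm : 0 < m)
    (hv : (Submodule.Quotient.mk v : M ⧸ span ℤ {b}) = m • q) : qn N b q ≤ N v / m :=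
  csInf_le (vals_bdd h q) ⟨m, v, hm, hv, rfl⟩

lemma qn_mk_le (h : NormLike N) (v : M) : qn N b (Submodule.Quotient.mk v) ≤ N v := by
  have := qn_le (b := b) h (q := Submodule.Quotient.mk v) (m := 1) (v := v) one_pos (by simp)
  simpa using this

lemma exists_of_qn_lt (h : NormLike N) {q : M ⧸ span ℤ {b}} {t : ℝ} (ht : qn N b q < t) :
    ∃ (m : ℕ) (v : M), 0 < m ∧ (Submodule.Quotient.mk v : M ⧸ span ℤ {b}) = m • q ∧
      N v / m < t := by
  obtain ⟨s, ⟨m, v, hm, hv, rfl⟩, hs⟩ := exists_lt_of_csInf_lt (vals_nonempty q) ht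
  exact ⟨m, v, hm, hv, hs⟩

/-- lifts of short vectors -/
lemma exists_lift (h : NormLike N) {q : M ⧸ span ℤ {b}} {t : ℝ} (ht : qn N b q < t) :
    ∃ v : M, (Submodule.Quotient.mk v : M ⧸ span ℤ {b}) = q ∧ N v ≤ t + N b / 2 := by
  obtain ⟨m, w, hm, hw, hlt⟩ := exists_of_qn_lt h ht
  obtain ⟨v0, rfl⟩ := Submodule.Quotient.mk_surjective _ q
  have h1 : w - m • v0 ∈ span ℤ {b} := by
    rw [← Submodule.Quotient.mk_eq_zero, Submodule.Quotient.mk_sub, hw, sub_eq_zero,
      ← Nat.cast_smul_eq_nsmul ℤ, ← Nat.cast_smul_eq_nsmul ℤ, Submodule.Quotient.mk_smul]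
  obtain ⟨a, ha⟩ := Submodule.mem_span_singleton.1 h1
  -- `a = m s + ρ`, `|ρ| ≤ m / 2`
  obtain ⟨s, ρ, hsρ, hρ⟩ : ∃ s ρ : ℤ, a = m * s + ρ ∧ |(ρ : ℝ)| ≤ (m : ℝ) / 2 := by
    refine ⟨round ((a : ℝ) / m), a - m * round ((a : ℝ) / m), by ring, ?_⟩
    have hm' : (0 : ℝ) < m := by exact_mod_cast hm
    have h2 := abs_sub_round ((a : ℝ) / m)
    have h3 : ((a - m * round ((a : ℝ) / m) : ℤ) : ℝ) = m * ((a : ℝ) / m - round ((a : ℝ) / m)) := by
      push_cast
      field_simp
    rw [h3, abs_mul, abs_of_pos hm']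
    calc (m : ℝ) * |(a : ℝ) / m - round ((a : ℝ) / m)| ≤ m * (1 / 2) := by gcongr
      _ = m / 2 := by ring
  refine ⟨v0 + s • b, ?_, ?_⟩
  · have h9 : (Submodule.Quotient.mk (s • b) : M ⧸ span ℤ {b}) = 0 :=
      (Submodule.Quotient.mk_eq_zero _).2
        (Submodule.smul_mem _ _ (Submodule.mem_span_singleton_self b))
    rw [Submodule.Quotient.mk_add, h9, add_zero]
  · have h4 : m • (v0 + s • b) = w - ρ • b := by
      have h5 : w = m • v0 + a • b := by rw [ha]; abel
      rw [h5, hsρ, smul_add, add_smul, mul_smul, Nat.cast_smul_eq_nsmul]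
      abel
    have h6 := h.sub w (ρ • b)
    rw [← h4, h.nsmul, h.smul] at h6
    have hm' : (0 : ℝ) < m := by exact_mod_cast hm
    rw [div_lt_iff₀ hm'] at hlt
    have h7 : |(ρ : ℝ)| * N b ≤ (m : ℝ) / 2 * N b := by
      have := h.nonneg b
      gcongr
    have h8 : (m : ℝ) * N (v0 + s • b) ≤ m * (t + N b / 2) := by nlinarith
    exact le_of_mul_le_mul_left h8 hm'

lemma qn_normLike (h : NormLike N) : NormLike (qn N b) := by
  refine ⟨?_, ?_, ?_⟩
  · intro a q
    rcases eq_or_ne a 0 with rfl | ha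
    · simp only [zero_smul, Int.cast_zero, abs_zero, zero_mul]
      refine le_antisymm ?_ (qn_nonneg h _)
      have := qn_le (b := b) h (q := 0) (m := 1) (v := 0) one_pos (by simp)
      simpa [h.zero] using this
    have ha' : 0 < |(a : ℝ)| := abs_pos.2 (by exact_mod_cast ha)
    apply le_antisymm
    · rw [← div_le_iff₀' ha']
      apply le_csInf (vals_nonempty q)
      rintro _ ⟨m, v, hm, hv, rfl⟩
      rw [div_le_iff₀' ha']
      have := qn_le (b := b) h (q := a • q) (m := m) (v := a • v) hm (by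
        rw [Submodule.Quotient.mk_smul, hv, smul_comm])
      rwa [h.smul, mul_div_assoc] at this
    · apply le_csInf (vals_nonempty _)
      rintro _ ⟨m, v, hm, hv, rfl⟩
      have hm' : (0 : ℝ) < m := by exact_mod_cast hm
      have hna : 0 < a.natAbs := Int.natAbs_pos.2 ha
      have := qn_le (b := b) h (q := q) (m := m * a.natAbs) (v := (Int.sign a) • v)
        (by positivity) (by
          rw [Submodule.Quotient.mk_smul, hv, ← Nat.cast_smul_eq_nsmul ℤ m,
            ← Nat.cast_smul_eq_nsmul ℤ (m * a.natAbs), smul_smul, smul_smul]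
          congr 1
          push_cast
          rw [← Int.sign_mul_self_eq_abs]
          ring)
      rw [h.smul] at this
      have h2 : |((Int.sign a : ℤ) : ℝ)| = 1 := by
        rw [← Int.cast_abs, Int.abs_sign_of_ne_zero ha]; simp
      rw [h2, one_mul] at this
      have h3 : ((m * a.natAbs : ℕ) : ℝ) = m * |(a : ℝ)| := by
        push_cast
        rw [Nat.cast_natAbs]; simp
      rw [h3, le_div_iff₀ (by positivity)] at this
      rw [le_div_iff₀ hm']
      nlinarith
  · intro q1 q2
    refine le_of_forall_pos_le_add fun ε hε => ?_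
    obtain ⟨m1, v1, hm1, hv1, h1⟩ := exists_of_qn_lt h
      (show qn N b q1 < qn N b q1 + ε / 2 by linarith)
    obtain ⟨m2, v2, hm2, hv2, h2⟩ := exists_of_qn_lt h
      (show qn N b q2 < qn N b q2 + ε / 2 by linarith)
    have hm1' : (0 : ℝ) < m1 := by exact_mod_cast hm1
    have hm2' : (0 : ℝ) < m2 := by exact_mod_cast hm2
    have h3 := qn_le (b := b) h (q := q1 + q2) (m := m1 * m2) (v := m2 • v1 + m1 • v2)
      (by positivity) (by
        rw [Submodule.Quotient.mk_add, ← Nat.cast_smul_eq_nsmul ℤ m2 v1,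
          ← Nat.cast_smul_eq_nsmul ℤ m1 v2, Submodule.Quotient.mk_smul,
          Submodule.Quotient.mk_smul, hv1, hv2, Nat.cast_smul_eq_nsmul, Nat.cast_smul_eq_nsmul,
          smul_smul, smul_smul, smul_add, mul_comm m2 m1])
    refine h3.trans ?_
    have h4 := h.add (m2 • v1) (m1 • v2)
    rw [h.nsmul, h.nsmul] at h4
    rw [div_lt_iff₀ hm1'] at h1
    rw [div_lt_iff₀ hm2'] at h2
    rw [div_le_iff₀ (by positivity)]
    push_cast
    nlinarith
  · intro R
    refine ((h.fin (R + 1 + N b / 2)).image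
      (Submodule.Quotient.mk : M → M ⧸ span ℤ {b})).subset ?_
    intro q hq
    change qn N b q ≤ R at hq
    obtain ⟨v, hv, hv2⟩ := exists_lift h (show qn N b q < R + 1 by linarith)
    exact ⟨v, hv2, hv⟩

/-- The quotient by a shortest vector is torsion free. -/
lemma quot_torsionFree (h : NormLike N) [IsAddTorsionFree M] (hb : b ≠ 0)
    (hmin : ∀ v, v ≠ 0 → N b ≤ N v) : IsAddTorsionFree (M ⧸ span ℤ {b}) := by
  refine ⟨fun n hn q1 q2 hq => ?_⟩
  obtain ⟨v, hv⟩ := Submodule.Quotient.mk_surjective _ (q1 - q2)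
  have hn' : (0 : ℝ) < n := by exact_mod_cast Nat.pos_of_ne_zero hn
  have h0 : n • (q1 - q2) = 0 := by rw [smul_sub]; exact sub_eq_zero.2 hq
  have h1 : n • v ∈ span ℤ {b} := by
    rw [← Submodule.Quotient.mk_eq_zero, ← Nat.cast_smul_eq_nsmul ℤ, Submodule.Quotient.mk_smul,
      hv, Nat.cast_smul_eq_nsmul, h0]
  obtain ⟨a, ha⟩ := Submodule.mem_span_singleton.1 h1
  obtain ⟨s, ρ, hsρ, hρ⟩ : ∃ s ρ : ℤ, a = n * s + ρ ∧ |(ρ : ℝ)| ≤ (n : ℝ) / 2 := by
    refine ⟨round ((a : ℝ) / n), a - n * round ((a : ℝ) / n), by ring, ?_⟩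
    have h2 := abs_sub_round ((a : ℝ) / n)
    have h3 : ((a - n * round ((a : ℝ) / n) : ℤ) : ℝ) = n * ((a : ℝ) / n - round ((a : ℝ) / n)) := by
      push_cast
      field_simp
    rw [h3, abs_mul, abs_of_pos hn']
    calc (n : ℝ) * |(a : ℝ) / n - round ((a : ℝ) / n)| ≤ n * (1 / 2) := by gcongr
      _ = n / 2 := by ring
  have h4 : n • (v - s • b) = ρ • b := by
    rw [smul_sub, ← ha, hsρ, add_smul, mul_smul, Nat.cast_smul_eq_nsmul]
    abel
  have h5 : (n : ℝ) * N (v - s • b) ≤ n * (N b / 2) := by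
    rw [← h.nsmul, h4, h.smul]
    have := h.nonneg b
    nlinarith
  have h6 : N (v - s • b) ≤ N b / 2 := le_of_mul_le_mul_left h5 hn'
  have hpos := h.pos hb
  have h7 : v - s • b = 0 := by
    by_contra hne
    have := hmin _ hne
    linarith
  have h8 : (Submodule.Quotient.mk v : M ⧸ span ℤ {b}) = 0 := by
    rw [Submodule.Quotient.mk_eq_zero, sub_eq_zero.1 h7]
    exact Submodule.smul_mem _ _ (Submodule.mem_span_singleton_self b)
  rw [hv] at h8
  exact sub_eq_zero.1 h8

end quot

/-- **Reduced bases.** -/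
theorem exists_reduced (r : ℕ) : ∃ K : ℝ, 1 ≤ K ∧ ∀ (M : Type) [AddCommGroup M]
    [IsAddTorsionFree M] [Module.Finite ℤ M] (N : M → ℝ), NormLike N →
    Module.finrank ℤ M = r → ∃ b : Fin r → M, LinearIndependent ℤ b ∧
      ∀ v, ∃ c : Fin r → ℤ, v = ∑ i, c i • b i ∧ ∀ i, |(c i : ℝ)| * N (b i) ≤ K * N v := by
  induction r with
  | zero =>
    refine ⟨1, le_rfl, ?_⟩
    intro M _ _ _ N hN hr
    have hfree : Module.Free ℤ M := Module.free_of_finite_type_torsion_free'
    have hsub : Subsingleton M := by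
      rwa [Module.finrank_eq_zero_iff_of_free] at hr
    refine ⟨fun i => i.elim0, linearIndependent_empty_type, fun v => ⟨fun i => i.elim0, ?_, ?_⟩⟩
    · exact Subsingleton.elim _ _
    · intro i; exact i.elim0
  | succ r ih =>
    obtain ⟨K, hK, ih⟩ := ih
    refine ⟨1 + 4 * (r + 1) * K, ?_, ?_⟩
    · have : 0 ≤ 4 * ((r : ℝ) + 1) * K := by positivity
      linarith
    intro M _ _ _ N hN hr
    have hnt : Nontrivial M := by
      by_contra hcon
      rw [not_nontrivial_iff_subsingleton] at hcon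
      rw [Module.finrank_zero_of_subsingleton] at hr
      omega
    obtain ⟨b0, hb0, hmin⟩ := hN.exists_min
    have htf := quot_torsionFree hN hb0 hmin
    have hN' : NormLike (qn N b0) := qn_normLike hN
    have hfr : Module.finrank ℤ (M ⧸ span ℤ {b0}) = r := by
      have h1 := Submodule.finrank_quotient_add_finrank (span ℤ {b0})
      have h2 : Module.finrank ℤ (span ℤ {b0}) = 1 := by
        rw [← LinearEquiv.finrank_eq (LinearEquiv.toSpanNonzeroSingleton ℤ M b0 hb0)]
        exact Module.finrank_self ℤ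
      omega
    obtain ⟨bq, hli, hspan⟩ := ih (M ⧸ span ℤ {b0}) (qn N b0) hN' hfr
    have hlift : ∀ i, ∃ v : M, (Submodule.Quotient.mk v : M ⧸ span ℤ {b0}) = bq i ∧
        N v ≤ 4 * qn N b0 (bq i) := by
      intro i
      have hne : bq i ≠ 0 := hli.ne_zero i
      have hpos : 0 < qn N b0 (bq i) := hN'.pos hne
      obtain ⟨v, hv, hv2⟩ := exists_lift hN (show qn N b0 (bq i) < 2 * qn N b0 (bq i) by linarith)
      refine ⟨v, hv, ?_⟩
      have hv0 : v ≠ 0 := by
        rintro rfl
        exact hne hv.symm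
      have := hmin v hv0
      linarith
    choose b hb hb2 using hlift
    have hbN : ∀ i, 0 ≤ N (b i) := fun i => hN.nonneg _
    refine ⟨Fin.cons b0 b, ?_, ?_⟩
    · rw [Fintype.linearIndependent_iff] at hli ⊢
      intro g hg
      rw [Fin.sum_univ_succ] at hg
      simp only [Fin.cons_zero, Fin.cons_succ] at hg
      have h1 : ∑ i, g i.succ • bq i = 0 := by
        have h2 := congrArg (Submodule.Quotient.mk : M → M ⧸ span ℤ {b0}) hg
        have h9 : (Submodule.Quotient.mk (g 0 • b0) : M ⧸ span ℤ {b0}) = 0 :=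
          (Submodule.Quotient.mk_eq_zero _).2
            (Submodule.smul_mem _ _ (Submodule.mem_span_singleton_self b0))
        rw [Submodule.Quotient.mk_add, h9, zero_add, Submodule.Quotient.mk_zero,
          ← Submodule.mkQ_apply, map_sum] at h2
        simpa [hb] using h2
      have h3 := hli _ h1
      have h4 : g 0 • b0 = 0 := by
        simpa [h3] using hg
      have h5 : g 0 = 0 := (smul_eq_zero.1 h4).resolve_right hb0
      intro i
      refine Fin.cases h5 (fun i => h3 i) i
    · intro v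
      obtain ⟨c, hc, hc2⟩ := hspan (Submodule.Quotient.mk v)
      have h1 : v - ∑ i, c i • b i ∈ span ℤ {b0} := by
        rw [← Submodule.Quotient.mk_eq_zero, Submodule.Quotient.mk_sub, hc, sub_eq_zero,
          ← Submodule.mkQ_apply, map_sum]
        simp [hb]
      obtain ⟨a, ha⟩ := Submodule.mem_span_singleton.1 h1
      refine ⟨Fin.cons a c, ?_, ?_⟩
      · rw [Fin.sum_univ_succ]
        simp only [Fin.cons_zero, Fin.cons_succ]
        rw [ha]; abel
      · have hqv := qn_mk_le (b := b0) hN v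
        have hv := hN.nonneg v
        have h2 : ∀ i, |(c i : ℝ)| * N (b i) ≤ 4 * K * N v := by
          intro i
          have h3 := hc2 i
          have h4 := hb2 i
          calc |(c i : ℝ)| * N (b i) ≤ |(c i : ℝ)| * (4 * qn N b0 (bq i)) := by gcongr
            _ = 4 * (|(c i : ℝ)| * qn N b0 (bq i)) := by ring
            _ ≤ 4 * (K * qn N b0 (Submodule.Quotient.mk v)) := by gcongr
            _ ≤ 4 * (K * N v) := by gcongr
            _ = 4 * K * N v := by ring
        intro i
        refine Fin.cases ?_ (fun i => ?_) i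
        · simp only [Fin.cons_zero]
          rw [← hN.smul, ha]
          refine (hN.sub _ _).trans ?_
          have h5 := hN.sum Finset.univ (fun i => c i • b i)
          have h6 : ∑ i, N (c i • b i) ≤ ∑ _i : Fin r, 4 * K * N v :=
            Finset.sum_le_sum fun i _ => by rw [hN.smul]; exact h2 i
          rw [Finset.sum_const, Finset.card_univ, Fintype.card_fin, nsmul_eq_mul] at h6
          have h7 : 0 ≤ K * N v := by positivity
          nlinarith
        · simp only [Fin.cons_succ]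
          refine (h2 i).trans ?_
          have h7 : 0 ≤ K * N v := by positivity
          have h8 : (0 : ℝ) ≤ r := Nat.cast_nonneg r
          nlinarith [mul_nonneg h8 h7]

end Pool.Agent.X330.SZ
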