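import Pool.Agent.X330.SZ.RB

/-!
Siegel's lemma in the form of Bombieri and Vaaler for one equation: the integer solutions of
`∑ x_j z_j = 0` contain `n` independent vectors with product of the norms `≤ C ‖x‖`.
-/

set_option autoImplicit false

open Submodule

namespace Pool.Agent.X330.SZ

/-- the linear form with coefficients `x` -/
def dot {m : ℕ} (x : Fin m → ℤ) : (Fin m → ℤ) →ₗ[ℤ] ℤ where
  toFun z := ∑ j, z j * x j
  map_add' := by intro a b; simp [add_mul, Finset.sum_add_distrib]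
  map_smul' := by intro a b; simp [Finset.mul_sum, mul_assoc]

lemma dot_apply {m : ℕ} (x z : Fin m → ℤ) : dot x z = ∑ j, z j * x j := rfl

lemma normLike_norm (m : ℕ) : NormLike (fun v : Fin m → ℤ => ‖v‖) := by
  refine ⟨fun a v => ?_, fun u v => norm_add_le u v, fun R => ?_⟩
  · show ‖a • v‖ = _
    rw [norm_smul, Int.norm_eq_abs]
  · refine (Set.finite_Icc (fun _ : Fin m => -⌈R⌉) (fun _ => ⌈R⌉)).subset ?_
    intro v hv
    change ‖v‖ ≤ R at hv
    have h1 : ∀ i, |(v i : ℝ)| ≤ R := fun i => by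
      rw [← Int.norm_eq_abs]; exact (norm_le_pi_norm v i).trans hv
    constructor
    · intro i
      have h2 := (abs_le.1 (h1 i)).1
      have h3 : R ≤ ⌈R⌉ := Int.le_ceil R
      have : (-⌈R⌉ : ℝ) ≤ v i := by linarith
      exact_mod_cast this
    · intro i
      have h2 := (abs_le.1 (h1 i)).2
      have h3 : R ≤ ⌈R⌉ := Int.le_ceil R
      have : (v i : ℝ) ≤ ⌈R⌉ := by linarith
      exact_mod_cast this

lemma NormLike.restrict {M : Type} [AddCommGroup M] {N : M → ℝ} (h : NormLike N)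
    (L : Submodule ℤ M) : NormLike (fun v : L => N v) := by
  refine ⟨fun a v => ?_, fun u v => ?_, fun R => ?_⟩
  · show N ((a • v : L) : M) = _
    rw [Submodule.coe_smul, h.smul]
  · show N ((u + v : L) : M) ≤ _
    rw [Submodule.coe_add]
    exact h.add _ _
  · exact Set.Finite.preimage Subtype.val_injective.injOn (h.fin R)

/-- the rank of the lattice orthogonal to `x` -/
lemma finrank_ker_dot {n : ℕ} {x : Fin (n + 1) → ℤ} (hx : x ≠ 0) :
    Module.finrank ℤ (LinearMap.ker (dot x)) = n := by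
  have h1 := Submodule.finrank_quotient_add_finrank (LinearMap.ker (dot x))
  rw [LinearEquiv.finrank_eq (dot x).quotKerEquivRange] at h1
  have h2 : Module.finrank ℤ (LinearMap.range (dot x)) = 1 := by
    apply le_antisymm
    · have := Submodule.finrank_le (LinearMap.range (dot x))
      rwa [Module.finrank_self] at this
    · rw [Nat.one_le_iff_ne_zero]
      intro h0
      rw [Module.finrank_eq_zero_iff_of_free] at h0
      obtain ⟨j, hj⟩ := Function.ne_iff.1 hx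
      have h3 : (dot x) (Pi.single j 1) = x j := by
        rw [dot_apply]
        simp [Pi.single_apply]
      have h4 : (⟨(dot x) (Pi.single j 1), LinearMap.mem_range_self _ _⟩ :
          LinearMap.range (dot x)) = 0 := Subsingleton.elim _ _
      have h5 := congrArg Subtype.val h4
      simp only [h3] at h5
      exact hj h5
  rw [h2, Module.finrank_fin_fun] at h1
  omega

lemma card_pi_Icc {m : ℕ} (f : Fin m → ℕ) :
    (Fintype.piFinset fun i : Fin m => Finset.Icc (-(f i : ℤ)) (f i)).card =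
      ∏ i, (2 * f i + 1) := by
  rw [Fintype.card_piFinset]
  refine Finset.prod_congr rfl fun i _ => ?_
  rw [Int.card_Icc]
  omega

/-- the product of the norms of a reduced basis of `x^⊥` -/
theorem exists_basis (n : ℕ) : ∃ C : ℝ, 1 ≤ C ∧ ∀ x : Fin (n + 1) → ℤ, x ≠ 0 →
    ∃ g : Fin n → (Fin (n + 1) → ℤ), LinearIndependent ℤ g ∧ (∀ i, dot x (g i) = 0) ∧
      ∏ i, ‖g i‖ ≤ C * ‖x‖ := by
  obtain ⟨K, hK, hred⟩ := exists_reduced n
  refine ⟨3 * (n + 1) * (5 * K) ^ n, ?_, ?_⟩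
  · have h1 : (1 : ℝ) ≤ (5 * K) ^ n := one_le_pow₀ (by linarith)
    have h2 : (0 : ℝ) ≤ n := Nat.cast_nonneg n
    nlinarith
  intro x hx
  have : IsAddTorsionFree (LinearMap.ker (dot x)) :=
    Function.Injective.isAddTorsionFree (LinearMap.ker (dot x)).subtype.toAddMonoidHom
      (Submodule.injective_subtype _)
  obtain ⟨b, hli, hspan⟩ := hred (LinearMap.ker (dot x)) (fun v => ‖(v : Fin (n + 1) → ℤ)‖)
    ((normLike_norm (n + 1)).restrict _) (finrank_ker_dot hx)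
  refine ⟨fun i => b i, ?_, fun i => (b i).2, ?_⟩
  · exact hli.map' (Submodule.subtype _) (Submodule.ker_subtype _)
  -- norms
  have hpos : ∀ i, 0 < ‖(b i : Fin (n + 1) → ℤ)‖ := by
    intro i
    rw [norm_pos_iff]
    intro h0
    exact hli.ne_zero i (Subtype.ext h0)
  -- the size of the box
  obtain ⟨R, hR1, hR⟩ : ∃ R : ℕ, 1 ≤ R ∧ ∀ i, ‖(b i : Fin (n + 1) → ℤ)‖ ≤ R := by
    refine ⟨1 + ∑ i, ⌈‖(b i : Fin (n + 1) → ℤ)‖⌉₊, by omega, fun i => ?_⟩
    have h1 : ⌈‖(b i : Fin (n + 1) → ℤ)‖⌉₊ ≤ ∑ i, ⌈‖(b i : Fin (n + 1) → ℤ)‖⌉₊ :=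
      Finset.single_le_sum (f := fun i => ⌈‖(b i : Fin (n + 1) → ℤ)‖⌉₊)
        (fun _ _ => Nat.zero_le _) (Finset.mem_univ i)
    have h2 := Nat.le_ceil ‖(b i : Fin (n + 1) → ℤ)‖
    have h3 : (⌈‖(b i : Fin (n + 1) → ℤ)‖⌉₊ : ℝ) ≤
        ((1 + ∑ i, ⌈‖(b i : Fin (n + 1) → ℤ)‖⌉₊ : ℕ) : ℝ) :=
      Nat.cast_le.2 (h1.trans (Nat.le_add_left _ _))
    exact h2.trans h3
  have hR0 : (0 : ℝ) < R := by exact_mod_cast hR1
  -- the norm of `x`
  obtain ⟨X, hX⟩ : ∃ X : ℕ, ∀ j, (x j).natAbs ≤ X ∧ (X : ℝ) ≤ ‖x‖ := by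
    refine ⟨⌊‖x‖⌋₊, fun j => ⟨?_, Nat.floor_le (norm_nonneg _)⟩⟩
    apply Nat.le_floor
    have := norm_le_pi_norm x j
    rw [Int.norm_eq_abs] at this
    rwa [Nat.cast_natAbs, Int.cast_abs]
  have hX1 : 1 ≤ X := by
    obtain ⟨j, hj⟩ := Function.ne_iff.1 hx
    exact (Int.natAbs_pos.2 hj).trans_le (hX j).1
  have hXx : (X : ℝ) ≤ ‖x‖ := (hX 0).2
  let Box : Finset (Fin (n + 1) → ℤ) :=
    Fintype.piFinset fun _ : Fin (n + 1) => Finset.Icc (-(R : ℤ)) R
  have hBox : Box.card = (2 * R + 1) ^ (n + 1) := by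
    show (Fintype.piFinset fun _ : Fin (n + 1) => Finset.Icc (-(R : ℤ)) R).card = _
    rw [card_pi_Icc (m := n + 1) (fun _ => R), Finset.prod_const, Finset.card_univ,
      Fintype.card_fin]
  have hmem : ∀ z ∈ Box, ∀ j, |z j| ≤ R := by
    intro z hz j
    have := Fintype.mem_piFinset.1 hz j
    rw [Finset.mem_Icc] at this
    exact abs_le.2 this
  let mm : Fin n → ℕ := fun i => ⌊2 * K * R / ‖(b i : Fin (n + 1) → ℤ)‖⌋₊
  -- fibres
  have hfib : ∀ a ∈ Box.image (dot x), (Box.filter fun z => dot x z = a).card ≤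
      ∏ i, (2 * mm i + 1) := by
    intro a ha
    obtain ⟨z0, hz0, rfl⟩ := Finset.mem_image.1 ha
    rw [← card_pi_Icc]
    have hker : ∀ z : Fin (n + 1) → ℤ, dot x z = dot x z0 → z - z0 ∈ LinearMap.ker (dot x) := by
      intro z hz
      rw [LinearMap.mem_ker, map_sub, hz, sub_self]
    choose cc hcc1 hcc2 using hspan
    classical
    refine Finset.card_le_card_of_injOn (fun z => if h : dot x z = dot x z0 then
      cc ⟨z - z0, hker z h⟩ else 0) ?_ ?_
    · intro z hz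
      rw [Finset.mem_coe, Finset.mem_filter] at hz
      simp only [dif_pos hz.2]
      rw [Finset.mem_coe, Fintype.mem_piFinset]
      intro i
      rw [Finset.mem_Icc, ← abs_le]
      have h1 := hcc2 ⟨z - z0, hker z hz.2⟩ i
      have h2 : ‖z - z0‖ ≤ 2 * R := by
        rw [pi_norm_le_iff_of_nonneg (by positivity)]
        intro j
        rw [Int.norm_eq_abs, Pi.sub_apply]
        have h3 := hmem z hz.1 j
        have h4 := hmem z0 hz0 j
        have h5 : |z j - z0 j| ≤ 2 * R := by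
          rw [abs_le] at h3 h4 ⊢
          constructor <;> linarith [h3.1, h3.2, h4.1, h4.2]
        exact_mod_cast h5
      have h6 : |(cc ⟨z - z0, hker z hz.2⟩ i : ℝ)| ≤ 2 * K * R / ‖(b i : Fin (n + 1) → ℤ)‖ := by
        rw [le_div_iff₀ (hpos i)]
        refine h1.trans ?_
        show K * ‖z - z0‖ ≤ _
        nlinarith
      have h7 : (cc ⟨z - z0, hker z hz.2⟩ i).natAbs ≤ mm i := by
        apply Nat.le_floor
        rwa [Nat.cast_natAbs, Int.cast_abs]
      rw [Int.abs_eq_natAbs]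
      exact_mod_cast h7
    · intro z hz z' hz' heq
      rw [Finset.mem_coe, Finset.mem_filter] at hz hz'
      simp only [dif_pos hz.2, dif_pos hz'.2] at heq
      have h1 := hcc1 ⟨z - z0, hker z hz.2⟩
      have h2 := hcc1 ⟨z' - z0, hker z' hz'.2⟩
      rw [heq, ← h2] at h1
      have h3 := congrArg Subtype.val h1
      exact sub_left_injective h3
  have himg : (Box.image (dot x)).card ≤ 2 * ((n + 1) * R * X) + 1 := by
    have h1 : Box.image (dot x) ⊆ Finset.Icc (-(((n + 1) * R * X : ℕ) : ℤ))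
        (((n + 1) * R * X : ℕ) : ℤ) := by
      intro a ha
      obtain ⟨z, hz, rfl⟩ := Finset.mem_image.1 ha
      rw [Finset.mem_Icc, ← abs_le, dot_apply]
      refine (Finset.abs_sum_le_sum_abs _ _).trans ?_
      have h2 : ∀ j ∈ Finset.univ, |z j * x j| ≤ ((R * X : ℕ) : ℤ) := by
        intro j _
        rw [abs_mul]
        push_cast
        have h3 := hmem z hz j
        have h4 : |x j| ≤ X := by
          rw [Int.abs_eq_natAbs]; exact_mod_cast (hX j).1
        exact mul_le_mul h3 h4 (abs_nonneg _) (by positivity)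
      refine (Finset.sum_le_sum h2).trans ?_
      rw [Finset.sum_const, Finset.card_univ, Fintype.card_fin, nsmul_eq_mul]
      push_cast
      rw [mul_assoc]
    refine (Finset.card_le_card h1).trans ?_
    rw [Int.card_Icc]
    omega
  have hcard := Finset.card_le_mul_card_image (s := Box) (f := dot x) _ hfib
  rw [hBox] at hcard
  have hcard2 : (((2 * R + 1) ^ (n + 1) : ℕ) : ℝ) ≤
      ((∏ i, (2 * mm i + 1) : ℕ) : ℝ) * ((2 * ((n + 1) * R * X) + 1 : ℕ) : ℝ) := by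
    exact_mod_cast hcard.trans (Nat.mul_le_mul_left _ himg)
  have hP : ((∏ i, (2 * mm i + 1) : ℕ) : ℝ) ≤ (5 * K * R) ^ n / ∏ i, ‖(b i : Fin (n + 1) → ℤ)‖ := by
    have h1 : (5 * K * R) ^ n / ∏ i, ‖(b i : Fin (n + 1) → ℤ)‖ =
        ∏ i, (5 * K * R / ‖(b i : Fin (n + 1) → ℤ)‖) := by
      rw [Finset.prod_div_distrib]
      simp
    rw [h1]
    push_cast
    refine Finset.prod_le_prod (fun i _ => by positivity) fun i _ => ?_
    have h2 : (mm i : ℝ) ≤ 2 * K * R / ‖(b i : Fin (n + 1) → ℤ)‖ :=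
      Nat.floor_le (by have := hpos i; positivity)
    have h3 : 1 ≤ K * R / ‖(b i : Fin (n + 1) → ℤ)‖ := by
      rw [le_div_iff₀ (hpos i)]
      have := hR i
      nlinarith
    have h4 : 2 * K * R / ‖(b i : Fin (n + 1) → ℤ)‖ = 2 * (K * R / ‖(b i : Fin (n + 1) → ℤ)‖) := by
      ring
    have h5 : 5 * K * R / ‖(b i : Fin (n + 1) → ℤ)‖ = 5 * (K * R / ‖(b i : Fin (n + 1) → ℤ)‖) := by
      ring
    rw [h4] at h2
    rw [h5]
    linarith
  have hprod : 0 < ∏ i, ‖(b i : Fin (n + 1) → ℤ)‖ := Finset.prod_pos fun i _ => hpos i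
  have h10 : (R : ℝ) ^ (n + 1) ≤ (5 * K * R) ^ n / (∏ i, ‖(b i : Fin (n + 1) → ℤ)‖) *
      (3 * ((n + 1) * R * X)) := by
    calc (R : ℝ) ^ (n + 1) ≤ (((2 * R + 1) ^ (n + 1) : ℕ) : ℝ) := by
          push_cast
          gcongr
          linarith
      _ ≤ _ := hcard2
      _ ≤ _ := by
          apply mul_le_mul hP ?_ (by positivity) (by positivity)
          push_cast
          have h11 : (1 : ℝ) ≤ (n + 1) * R * X := by
            have h12 : (1 : ℝ) ≤ n + 1 := by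
              have : (0 : ℝ) ≤ n := Nat.cast_nonneg n
              linarith
            have h13 : (1 : ℝ) ≤ R := by exact_mod_cast hR1
            have h14 : (1 : ℝ) ≤ X := by exact_mod_cast hX1
            calc (1 : ℝ) = 1 * 1 * 1 := by norm_num
              _ ≤ _ := by gcongr
          linarith
  rw [div_mul_eq_mul_div, le_div_iff₀ hprod, mul_pow (5 * K) (R : ℝ) n, pow_succ] at h10
  have h15 : (R : ℝ) ^ n * R * ∏ i, ‖(b i : Fin (n + 1) → ℤ)‖ ≤
      (R : ℝ) ^ n * R * (3 * (n + 1) * (5 * K) ^ n * X) := by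
    calc _ ≤ _ := h10
      _ = _ := by ring
  have h16 := le_of_mul_le_mul_left h15 (by positivity)
  refine h16.trans ?_
  gcongr

/-- **Siegel's lemma for one equation**, with sorted dyadic sizes. -/
theorem siegel (n : ℕ) : ∃ C : ℝ, 1 ≤ C ∧ ∀ x : Fin (n + 1) → ℤ, x ≠ 0 →
    ∃ (g : Fin n → (Fin (n + 1) → ℤ)) (E : Fin n → ℕ), LinearIndependent ℤ g ∧ Monotone E ∧
      (∀ i, dot x (g i) = 0) ∧ (∀ i j, |g i j| ≤ 2 ^ (E i + 1)) ∧
      ∏ i, (2 : ℝ) ^ E i ≤ C * ‖x‖ := by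
  obtain ⟨C, hC, h⟩ := exists_basis n
  refine ⟨C, hC, fun x hx => ?_⟩
  obtain ⟨g, hli, hg, hprod⟩ := h x hx
  let σ := Tuple.sort fun i => ‖g i‖
  have hσ : Monotone ((fun i => ‖g i‖) ∘ σ) := Tuple.monotone_sort _
  have h1 : ∀ i, 1 ≤ ‖g i‖ := by
    intro i
    obtain ⟨j, hj⟩ := Function.ne_iff.1 (hli.ne_zero i)
    refine le_trans ?_ (norm_le_pi_norm (g i) j)
    rw [Int.norm_eq_abs, ← Int.cast_abs]
    exact_mod_cast Int.one_le_abs hj
  refine ⟨fun i => g (σ i), fun i => Nat.log 2 ⌊‖g (σ i)‖⌋₊, ?_, ?_, ?_, ?_, ?_⟩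
  · exact hli.comp _ σ.injective
  · intro i j hij
    exact Nat.log_mono_right (Nat.floor_mono (hσ hij))
  · intro i; exact hg _
  · intro i j
    have h2 : (⌊‖g (σ i)‖⌋₊ : ℕ) < 2 ^ (Nat.log 2 ⌊‖g (σ i)‖⌋₊ + 1) :=
      Nat.lt_pow_succ_log_self (by norm_num) _
    have h3 : (g (σ i) j).natAbs ≤ ⌊‖g (σ i)‖⌋₊ := by
      apply Nat.le_floor
      have := norm_le_pi_norm (g (σ i)) j
      rw [Int.norm_eq_abs] at this
      rwa [Nat.cast_natAbs, Int.cast_abs]
    rw [Int.abs_eq_natAbs]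
    exact_mod_cast h3.trans h2.le
  · refine le_trans ?_ hprod
    rw [← Equiv.prod_comp σ fun i => ‖g i‖]
    refine Finset.prod_le_prod (fun i _ => by positivity) fun i _ => ?_
    have h4 : 2 ^ Nat.log 2 ⌊‖g (σ i)‖⌋₊ ≤ ⌊‖g (σ i)‖⌋₊ := by
      apply Nat.pow_log_le_self
      have : 1 ≤ ⌊‖g (σ i)‖⌋₊ := Nat.le_floor (by simpa using h1 (σ i))
      omega
    calc (2 : ℝ) ^ Nat.log 2 ⌊‖g (σ i)‖⌋₊ ≤ ⌊‖g (σ i)‖⌋₊ := by exact_mod_cast h4
      _ ≤ _ := Nat.floor_le (norm_nonneg _)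

end Pool.Agent.X330.SZ
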