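import Pool.Agent.X330.SZ.Hil2
import Pool.Agent.X330.SZ.Siegel

/-!
The induction step: cutting with linear forms with small coefficients.
-/

set_option autoImplicit false

open MvPolynomial

namespace Pool.Agent.X330.SZ

/-- linear form with integer coefficients -/
noncomputable def lin {N : ℕ} (z : Fin N → ℤ) : MvPolynomial (Fin N) ℚ :=
  ∑ j, (z j : ℚ) • (X j : MvPolynomial (Fin N) ℚ)

lemma lin_mem {N : ℕ} (z : Fin N → ℤ) : lin z ∈ homogeneousSubmodule (Fin N) ℚ 1 := by
  refine Submodule.sum_mem _ fun j _ => Submodule.smul_mem _ _ ?_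
  rw [mem_homogeneousSubmodule]
  exact isHomogeneous_X ℚ j

lemma lin_eval {N : ℕ} (x z : Fin N → ℤ) :
    eval (fun j => (x j : ℚ)) (lin z) = (dot x z : ℤ) := by
  simp [lin, dot_apply, smul_eval]

lemma lin_add {N : ℕ} (z w : Fin N → ℤ) : lin (z + w) = lin z + lin w := by
  simp [lin, add_smul, Finset.sum_add_distrib]

lemma lin_smul {N : ℕ} (a : ℤ) (z : Fin N → ℤ) : lin (a • z) = C (a : ℚ) * lin z := by
  simp only [lin, Finset.mul_sum]
  refine Finset.sum_congr rfl fun j _ => ?_
  rw [← smul_eq_C_mul, smul_smul]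
  congr 1
  simp

/-- the data attached to a set of points -/
structure Data (n : ℕ) (ι : Type) where
  x : ι → Fin (n + 1) → ℤ
  g : ι → ℕ → Fin (n + 1) → ℤ
  E : ι → ℕ → ℕ
  x_ne : ∀ p, x p ≠ 0
  sep : ∀ p q, p ≠ q → ∃ z, dot (x p) z ≠ 0 ∧ dot (x q) z = 0
  li : ∀ p, LinearIndependent ℤ (fun i : Fin n => g p i)
  mono : ∀ p i j, i ≤ j → j < n → E p i ≤ E p j
  orth : ∀ p i, i < n → dot (x p) (g p i) = 0
  size : ∀ p i j, i < n → |g p i j| ≤ 2 ^ (E p i + 1)

/-- the point `p` lies on the zero set -/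
def Van {n : ℕ} {ι : Type} (D : Data n ι) (P : Ideal (MvPolynomial (Fin (n + 1)) ℚ)) (p : ι) :
    Prop :=
  ∀ f ∈ P, eval (fun j => (D.x p j : ℚ)) f = 0

/-- box of linear forms -/
noncomputable def Box (n b : ℕ) : Finset (Fin (n + 1) → ℤ) :=
  Fintype.piFinset fun _ : Fin (n + 1) =>
    Finset.Icc (-(((n + 1) * 2 ^ (b + 1) : ℕ) : ℤ)) (((n + 1) * 2 ^ (b + 1) : ℕ) : ℤ)

lemma card_Box (n b : ℕ) : (Box n b).card ≤ (4 * (n + 1) + 1) ^ (n + 1) * 2 ^ (b * (n + 1)) := by
  unfold Box
  rw [card_pi_Icc (m := n + 1) (fun _ => (n + 1) * 2 ^ (b + 1)), Finset.prod_const,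
    Finset.card_univ, Fintype.card_fin, pow_mul, ← mul_pow]
  apply Nat.pow_le_pow_left
  have h1 : 1 ≤ 2 ^ b := Nat.one_le_two_pow
  calc 2 * ((n + 1) * 2 ^ (b + 1)) + 1 = 4 * (n + 1) * 2 ^ b + 1 := by ring
    _ ≤ 4 * (n + 1) * 2 ^ b + 2 ^ b := by omega
    _ = _ := by ring

lemma zero_mem_Box (n b : ℕ) : (0 : Fin (n + 1) → ℤ) ∈ Box n b := by
  unfold Box
  rw [Fintype.mem_piFinset]
  intro j
  rw [Pi.zero_apply, Finset.mem_Icc]
  constructor
  · have : (0 : ℤ) ≤ (((n + 1) * 2 ^ (b + 1) : ℕ) : ℤ) := Int.natCast_nonneg _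
    linarith
  · exact Int.natCast_nonneg _

/-- integral vectors independent over `ℤ` are independent over `ℚ` -/
lemma li_rat {N q : ℕ} (g : Fin q → Fin N → ℤ) (h : LinearIndependent ℤ g) :
    LinearIndependent ℚ (fun i => (fun j => (g i j : ℚ) : Fin N → ℚ)) := by
  rw [← LinearIndependent.iff_fractionRing ℤ ℚ]
  let φ : (Fin N → ℤ) →ₗ[ℤ] (Fin N → ℚ) :=
    { toFun := fun v j => (v j : ℚ)
      map_add' := by intro u v; ext j; simp
      map_smul' := by intro a v; ext j; simp }
  refine h.map' φ (LinearMap.ker_eq_bot.2 fun u v huv => ?_)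
  ext j
  have h1 : ((u j : ℤ) : ℚ) = ((v j : ℤ) : ℚ) := congrFun huv j
  exact_mod_cast h1

open scoped Classical in
/-- there are many small linear forms vanishing at `p` but not on the variety -/
theorem many_good {n : ℕ} {ι : Type} (D : Data n ι) (p : ι) (r : ℕ) (hr : r < n)
    (P : Ideal (MvPolynomial (Fin (n + 1)) ℚ)) (hP : P.IsPrime)
    (hdim : n < dimQ P + r) :
    2 ^ ((r + 1) * D.E p r) ≤ 2 ^ (∑ i ∈ Finset.range (r + 1), D.E p i) *
      ((Box n (D.E p r)).filter fun z => dot (D.x p) z = 0 ∧ lin z ∉ P).card := by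
  set b := D.E p r with hb
  have hEb : ∀ i : Fin (r + 1), D.E p i ≤ b := fun i => D.mono p i r (by omega) hr
  -- a good index
  have hli : LinearIndependent ℤ (fun i : Fin (r + 1) => D.g p i) :=
    (D.li p).comp (fun i : Fin (r + 1) => (⟨i, by omega⟩ : Fin n)) fun i j hij => by
      have := congrArg Fin.val hij
      exact Fin.ext this
  obtain ⟨i0, hi0⟩ : ∃ i0 : Fin (r + 1), lin (D.g p i0) ∉ P := by
    by_contra hcon
    push Not at hcon
    have := dimQ_forms P hP _ (li_rat _ hli) hcon
    omega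
  let W : Fin (r + 1) → ℕ := fun i => 2 ^ (b - D.E p i)
  let T : Finset (Fin (r + 1) → ℕ) := Fintype.piFinset fun i => Finset.range (W i + 1)
  let comb : (Fin (r + 1) → ℕ) → (Fin (n + 1) → ℤ) := fun a => ∑ i, (a i : ℤ) • D.g p i
  have hcomb_inj : Function.Injective comb := by
    intro a a' haa
    have h1 : ∑ i, ((a i : ℤ) - (a' i : ℤ)) • D.g p i = 0 := by
      simp only [sub_smul, Finset.sum_sub_distrib]
      exact sub_eq_zero.2 haa
    have h2 := Fintype.linearIndependent_iff.1 hli _ h1
    funext i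
    have := h2 i
    omega
  have hcardT : T.card = ∏ i, (W i + 1) := by
    simp [T, Fintype.card_piFinset]
  have hbad : (T.filter fun a => lin (comb a) ∈ P).card ≤ ∏ i ∈ Finset.univ.erase i0, (W i + 1) := by
    have h1 : ∏ i ∈ Finset.univ.erase i0, (W i + 1) =
        (Fintype.piFinset fun i => if i = i0 then {0} else Finset.range (W i + 1)).card := by
      rw [Fintype.card_piFinset, ← Finset.mul_prod_erase Finset.univ _ (Finset.mem_univ i0)]
      simp only [if_true, Finset.card_singleton, one_mul]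
      refine Finset.prod_congr rfl fun i hi => ?_
      rw [if_neg (Finset.ne_of_mem_erase hi), Finset.card_range]
    rw [h1]
    refine Finset.card_le_card_of_injOn (fun a => Function.update a i0 0) ?_ ?_
    · intro a ha
      rw [Finset.mem_coe, Finset.mem_filter] at ha
      rw [Finset.mem_coe, Fintype.mem_piFinset]
      intro i
      by_cases hi : i = i0
      · subst hi; simp
      · rw [if_neg hi]
        show Function.update a i0 0 i ∈ _
        rw [Function.update_of_ne hi]
        exact Fintype.mem_piFinset.1 ha.1 i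
    · intro a ha a' ha' haa
      rw [Finset.mem_coe, Finset.mem_filter] at ha ha'
      have h2 : ∀ i, i ≠ i0 → a i = a' i := by
        intro i hi
        have := congrFun haa i
        simpa [Function.update_of_ne hi] using this
      have h3 : comb a - comb a' = ((a i0 : ℤ) - (a' i0 : ℤ)) • D.g p i0 := by
        simp only [comb]
        rw [← Finset.sum_sub_distrib, Finset.sum_eq_single i0]
        · rw [sub_smul]
        · intro i _ hi
          rw [h2 i hi, sub_self]
        · intro h; exact absurd (Finset.mem_univ _) h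
      have h4 : lin (comb a - comb a') ∈ P := by
        have h5 : lin (comb a - comb a') = lin (comb a) - lin (comb a') := by
          rw [eq_sub_iff_add_eq, ← lin_add, sub_add_cancel]
        rw [h5]
        exact Ideal.sub_mem _ ha.2 ha'.2
      rw [h3, lin_smul] at h4
      rcases hP.mem_or_mem h4 with h5 | h5
      · have h6 : (a i0 : ℤ) - (a' i0 : ℤ) = 0 := by
          by_contra h7
          have h8 : IsUnit (C (((a i0 : ℤ) - (a' i0 : ℤ) : ℤ) : ℚ) :
              MvPolynomial (Fin (n + 1)) ℚ) := by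
            refine IsUnit.map C (isUnit_iff_ne_zero.2 ?_)
            exact_mod_cast h7
          exact hP.ne_top (Ideal.eq_top_of_isUnit_mem _ h5 h8)
        funext i
        by_cases hi : i = i0
        · subst hi; omega
        · exact h2 i hi
      · exact absurd h5 hi0
  have hgood : ∏ i, W i ≤ (T.filter fun a => ¬ lin (comb a) ∈ P).card := by
    have h1 := Finset.card_filter_add_card_filter_not (s := T) (fun a => lin (comb a) ∈ P)
    rw [hcardT, ← Finset.mul_prod_erase Finset.univ (fun i => W i + 1) (Finset.mem_univ i0),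
      add_mul, one_mul] at h1
    have h2 : W i0 * ∏ i ∈ Finset.univ.erase i0, (W i + 1) ≤
        (T.filter fun a => ¬ lin (comb a) ∈ P).card := by omega
    refine le_trans ?_ h2
    rw [← Finset.mul_prod_erase Finset.univ W (Finset.mem_univ i0)]
    refine Nat.mul_le_mul_left _ (Finset.prod_le_prod' fun i _ => by omega)
  have hinto : (T.filter fun a => ¬ lin (comb a) ∈ P).card ≤
      ((Box n b).filter fun z => dot (D.x p) z = 0 ∧ lin z ∉ P).card := by
    refine Finset.card_le_card_of_injOn comb ?_ hcomb_inj.injOn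
    intro a ha
    rw [Finset.mem_coe, Finset.mem_filter] at ha ⊢
    refine ⟨?_, ?_, ha.2⟩
    · unfold Box
      rw [Fintype.mem_piFinset]
      intro j
      rw [Finset.mem_Icc, ← abs_le]
      have h1 : comb a j = ∑ i, (a i : ℤ) * D.g p i j := by
        simp [comb, Finset.sum_apply]
      rw [h1]
      refine (Finset.abs_sum_le_sum_abs _ _).trans ?_
      have h2 : ∀ i ∈ Finset.univ, |(a i : ℤ) * D.g p (i : Fin (r + 1)) j| ≤ 2 ^ (b + 1) := by
        intro i _
        rw [abs_mul]
        have h3 := Fintype.mem_piFinset.1 ha.1 i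
        rw [Finset.mem_range] at h3
        have h4 : |(a i : ℤ)| ≤ 2 ^ (b - D.E p i) := by
          rw [abs_of_nonneg (Int.natCast_nonneg _)]
          have h5 : a i ≤ 2 ^ (b - D.E p i) := by
            have : W i = 2 ^ (b - D.E p i) := rfl
            omega
          exact_mod_cast h5
        have h5 := D.size p i j (by omega)
        calc |(a i : ℤ)| * |D.g p i j| ≤ 2 ^ (b - D.E p i) * 2 ^ (D.E p i + 1) :=
              mul_le_mul h4 h5 (abs_nonneg _) (by positivity)
          _ = 2 ^ (b + 1) := by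
              rw [← pow_add]
              congr 1
              have := hEb i
              omega
      refine (Finset.sum_le_sum h2).trans ?_
      rw [Finset.sum_const, Finset.card_univ, Fintype.card_fin, nsmul_eq_mul]
      push_cast
      have h3 : ((r : ℤ) + 1) ≤ (n : ℤ) + 1 := by omega
      exact mul_le_mul_of_nonneg_right h3 (by positivity)
    · rw [map_sum]
      refine Finset.sum_eq_zero fun i _ => ?_
      rw [map_smul, D.orth p i (by omega), smul_zero]
  have hprod : 2 ^ (∑ i ∈ Finset.range (r + 1), D.E p i) * ∏ i, W i = 2 ^ ((r + 1) * b) := by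
    simp only [W]
    rw [Finset.prod_pow_eq_pow_sum, ← pow_add]
    congr 1
    rw [← Fin.sum_univ_eq_sum_range (fun i => D.E p i) (r + 1), ← Finset.sum_add_distrib]
    rw [Finset.sum_congr rfl (fun i _ => Nat.add_sub_cancel' (hEb i))]
    simp
  calc 2 ^ ((r + 1) * b) = 2 ^ (∑ i ∈ Finset.range (r + 1), D.E p i) * ∏ i, W i := hprod.symm
    _ ≤ _ := Nat.mul_le_mul_left _ (hgood.trans hinto)

end Pool.Agent.X330.SZ
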