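import Pool.Agent.X330.SZ.Step

/-!
The induction step and the two phases.
-/

set_option autoImplicit false

open MvPolynomial

namespace Pool.Agent.X330.SZ

/-- constant -/
noncomputable def Cn (n : ℕ) : ℝ := (4 * (n + 1) + 1) ^ (n + 1)

lemma Cn_pos (n : ℕ) : 0 < Cn n := by unfold Cn; positivity

open scoped Classical in
/-- The induction step. -/
theorem step {n : ℕ} {ι : Type} (D : Data n ι) (e r b a' : ℕ) (hn : n = e + 1 + r)
    (P : Ideal (MvPolynomial (Fin (n + 1)) ℚ)) (hP : P.IsPrime) (hhom : Hom P)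
    (hdim : e + 2 ≤ dimQ P) (F : Finset ι) (hF : ∀ p ∈ F, Van D P p)
    (hb : ∀ p ∈ F, D.E p r = b) (ha : ∀ p ∈ F, ∑ i ∈ Finset.range r, D.E p i = a')
    (R : ℝ) (hR : 0 < R)
    (ih : ∀ Z : Ideal (MvPolynomial (Fin (n + 1)) ℚ), Z.IsPrime → Hom Z → e + 1 ≤ dimQ Z →
      ∀ F' ⊆ F, (∀ p ∈ F', Van D Z p) → A Z e (F'.card / R)) :
    A P (e + 1) (F.card / (R * (Cn n * 2 ^ ((e + 2) * b + a')))) := by
  rcases F.eq_empty_or_nonempty with hF0 | hF0
  · subst hF0
    apply A_nonpos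
    simp
  have hCn := Cn_pos n
  -- counting
  let G : ι → Finset (Fin (n + 1) → ℤ) := fun p =>
    (Box n b).filter fun z => dot (D.x p) z = 0 ∧ lin z ∉ P
  have hG : ∀ p ∈ F, (2 : ℝ) ^ ((r + 1) * b) ≤ 2 ^ (a' + b) * ((G p).card : ℝ) := by
    intro p hp
    have h1 := many_good D p r (by omega) P hP (by omega)
    rw [Finset.sum_range_succ, ha p hp, hb p hp] at h1
    exact_mod_cast h1
  let Fz : (Fin (n + 1) → ℤ) → Finset ι := fun z => F.filter fun p => z ∈ G p
  have hdouble : ∑ z ∈ Box n b, ((Fz z).card : ℝ) = ∑ p ∈ F, ((G p).card : ℝ) := by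
    have h1 : ∑ z ∈ Box n b, (Fz z).card = ∑ p ∈ F, (G p).card := by
      have h2 : ∀ z ∈ Box n b, (Fz z).card = ∑ p ∈ F, if z ∈ G p then 1 else 0 := by
        intro z _
        rw [Finset.card_filter]
      rw [Finset.sum_congr rfl h2, Finset.sum_comm]
      refine Finset.sum_congr rfl fun p _ => ?_
      rw [← Finset.card_filter]
      congr 1
      ext z
      rw [Finset.mem_filter]
      exact ⟨fun h => h.2, fun h => ⟨(Finset.mem_filter.1 h).1, h⟩⟩
    exact_mod_cast h1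
  have hBox : ((Box n b).card : ℝ) ≤ Cn n * 2 ^ (b * (n + 1)) := by
    have := card_Box n b
    unfold Cn
    exact_mod_cast this
  -- the pigeonhole
  set ρ : ℝ := F.card / (Cn n * 2 ^ ((e + 2) * b + a')) with hρ
  have hρpos : 0 < ρ := by
    have : (0 : ℝ) < F.card := by exact_mod_cast hF0.card_pos
    positivity
  obtain ⟨z, hz, hzρ⟩ : ∃ z ∈ Box n b, ρ ≤ (Fz z).card := by
    refine Finset.exists_le_of_sum_le ⟨0, zero_mem_Box n b⟩ ?_
    rw [Finset.sum_const, nsmul_eq_mul, hdouble]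
    have h1 : ((Box n b).card : ℝ) * ρ ≤ (Cn n * 2 ^ (b * (n + 1))) * ρ := by gcongr
    refine h1.trans ?_
    have h2 : ∀ p ∈ F, (2 : ℝ) ^ ((r + 1) * b) / 2 ^ (a' + b) ≤ ((G p).card : ℝ) := by
      intro p hp
      rw [div_le_iff₀ (by positivity)]
      exact (hG p hp).trans_eq (mul_comm _ _)
    refine le_trans ?_ (Finset.sum_le_sum h2)
    rw [Finset.sum_const, nsmul_eq_mul, hρ]
    have h3 : (2 : ℝ) ^ (b * (n + 1)) * 2 ^ (a' + b) = 2 ^ ((r + 1) * b) *
        2 ^ ((e + 2) * b + a') := by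
      rw [← pow_add, ← pow_add]
      congr 1
      subst hn
      ring
    apply le_of_eq
    rw [mul_div_assoc', mul_div_assoc', div_eq_div_iff (by positivity) (by positivity)]
    calc Cn n * 2 ^ (b * (n + 1)) * (F.card : ℝ) * 2 ^ (a' + b)
        = Cn n * (F.card : ℝ) * (2 ^ (b * (n + 1)) * 2 ^ (a' + b)) := by ring
      _ = _ := by rw [h3]; ring
  have hzP : lin z ∉ P := by
    have h1 : (0 : ℝ) < (Fz z).card := hρpos.trans_le hzρ
    obtain ⟨p, hp⟩ := Finset.card_pos.1 (by exact_mod_cast h1 : 0 < (Fz z).card)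
    exact (Finset.mem_filter.1 (Finset.mem_filter.1 hp).2).2.2
  have hzp : ∀ p ∈ Fz z, dot (D.x p) z = 0 := fun p hp =>
    (Finset.mem_filter.1 (Finset.mem_filter.1 hp).2).2.1
  -- components
  have hcomp : ∀ p, ∃ Z : Ideal (MvPolynomial (Fin (n + 1)) ℚ), p ∈ Fz z →
      (Z ∈ (P ⊔ Ideal.span {lin z}).minimalPrimes ∧ Van D Z p) := by
    intro p
    by_cases hp : p ∈ Fz z
    · have hker : (RingHom.ker (eval (fun j => (D.x p j : ℚ)))).IsPrime :=
        RingHom.ker_isPrime _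
      have hle : P ⊔ Ideal.span {lin z} ≤ RingHom.ker (eval (fun j => (D.x p j : ℚ))) := by
        rw [sup_le_iff]
        constructor
        · intro f hf
          exact hF p (Finset.mem_filter.1 hp).1 f hf
        · rw [Ideal.span_singleton_le_iff_mem, RingHom.mem_ker, lin_eval, hzp p hp, Int.cast_zero]
      obtain ⟨Z, hZ1, hZ2⟩ := Ideal.exists_minimalPrimes_le hle
      exact ⟨Z, fun _ => ⟨hZ1, fun f hf => hZ2 hf⟩⟩
    · exact ⟨⊥, fun h => absurd h hp⟩
  choose Zc hZc using hcomp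
  let J : Finset (Ideal (MvPolynomial (Fin (n + 1)) ℚ)) := (Fz z).image Zc
  have hJ : ∀ Z ∈ J, Z ∈ (P ⊔ Ideal.span {lin z}).minimalPrimes := by
    intro Z hZ
    obtain ⟨p, hp, rfl⟩ := Finset.mem_image.1 hZ
    exact (hZc p hp).1
  have hsec := A_section P hP hhom (lin z) (lin_mem z) hzP (fun Z : J => (Z : Ideal _))
    Subtype.val_injective (fun Z => hJ Z Z.2) e
    (fun Z => ((Fz z).filter fun p => Zc p = Z).card / R) (fun Z => by positivity) (by
      rintro ⟨Z, hZ⟩
      have hZm := hJ Z hZ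
      refine ih Z hZm.1.1 ((hhom.sup_span (lin_mem z)).minimal hZm) ?_ _ ?_ ?_
      · have := dimQ_section P Z (lin z) hP hZm
        omega
      · exact (Finset.filter_subset _ _).trans (Finset.filter_subset _ _)
      · intro p hp
        rw [Finset.mem_filter] at hp
        have := (hZc p hp.1).2
        rwa [hp.2] at this)
  refine hsec.mono ?_
  have hsum : ∑ Z : J, (((Fz z).filter fun p => Zc p = Z).card : ℝ) / R = (Fz z).card / R := by
    rw [← Finset.sum_div]
    congr 1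
    rw [Finset.sum_coe_sort J (fun Z => (((Fz z).filter fun p => Zc p = Z).card : ℝ))]
    have := Finset.card_eq_sum_card_image Zc (Fz z)
    rw [this]
    push_cast
    rfl
  rw [hsum]
  have h5 : (F.card : ℝ) / (R * (Cn n * 2 ^ ((e + 2) * b + a'))) = ρ / R := by
    rw [hρ, div_div, mul_comm R]
  rw [h5]
  gcongr

/-- geometric sum over a finite set of exponents -/
lemma geom_sum_le (s : ℕ) (hs : 1 ≤ s) (m : ℕ) :
    ∑ b ∈ Finset.range (m + 1), (2 : ℝ) ^ (s * b) ≤ 2 * 2 ^ (s * m) := by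
  induction m with
  | zero => simp
  | succ m ih =>
    rw [Finset.sum_range_succ]
    have h1 : (2 : ℝ) * 2 ^ (s * m) ≤ 2 ^ (s * (m + 1)) := by
      rw [← pow_succ']
      apply pow_le_pow_right₀ (by norm_num)
      nlinarith
    linarith

/-- weighted pigeonhole -/
lemma pigeon {ι : Type} (F : Finset ι) (hF : F.Nonempty) (β : ι → ℕ) (s : ℕ) (hs : 1 ≤ s)
    (T : ℝ) (hT : ∀ p ∈ F, (2 : ℝ) ^ (s * β p) ≤ T) :
    ∃ b ∈ F.image β, (F.card : ℝ) / (2 * T) ≤ (F.filter fun p => β p = b).card / 2 ^ (s * b) := by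
  have hT0 : 0 < T := by
    obtain ⟨p, hp⟩ := hF
    exact lt_of_lt_of_le (by positivity) (hT p hp)
  by_contra hcon
  push Not at hcon
  have hne : (F.image β).Nonempty := hF.image β
  have h1 : (F.card : ℝ) = ∑ b ∈ F.image β, ((F.filter fun p => β p = b).card : ℝ) := by
    have := Finset.card_eq_sum_card_image β F
    rw [this]
    push_cast
    rfl
  have h2 : ∑ b ∈ F.image β, ((F.filter fun p => β p = b).card : ℝ) <
      ∑ b ∈ F.image β, (F.card : ℝ) / (2 * T) * 2 ^ (s * b) := by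
    refine Finset.sum_lt_sum_of_nonempty hne fun b hb => ?_
    have := hcon b hb
    rwa [div_lt_iff₀ (by positivity)] at this
  rw [← h1, ← Finset.mul_sum] at h2
  have h3 : ∑ b ∈ F.image β, (2 : ℝ) ^ (s * b) ≤ 2 * T := by
    obtain ⟨p, hp, hpmax⟩ := Finset.exists_max_image F β hF
    have h4 : F.image β ⊆ Finset.range (β p + 1) := by
      intro b hb
      obtain ⟨q, hq, rfl⟩ := Finset.mem_image.1 hb
      rw [Finset.mem_range]
      have := hpmax q hq
      omega
    calc ∑ b ∈ F.image β, (2 : ℝ) ^ (s * b) ≤ ∑ b ∈ Finset.range (β p + 1), (2 : ℝ) ^ (s * b) :=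
          Finset.sum_le_sum_of_subset_of_nonneg h4 fun _ _ _ => by positivity
      _ ≤ 2 * 2 ^ (s * β p) := geom_sum_le s hs _
      _ ≤ 2 * T := by have := hT p hp; linarith
  have h5 : (F.card : ℝ) / (2 * T) * ∑ b ∈ F.image β, (2 : ℝ) ^ (s * b) ≤
      (F.card : ℝ) / (2 * T) * (2 * T) := by gcongr
  rw [div_mul_cancel₀ _ (by positivity)] at h5
  linarith

end Pool.Agent.X330.SZ
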